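import Mathlib

set_option autoImplicit false

open MeasureTheory Complex Finset Filter Topology
open scoped ENNReal Real

namespace Pool.Agent.Helper40.Beurling

/-! ### The exponential -/

/-- `E t = exp (2 π i t)`. -/
noncomputable def E (t : ℝ) : ℂ := Complex.exp ((2 * π * t : ℝ) * I)

lemma E_add (s t : ℝ) : E (s + t) = E s * E t := by
  rw [E, E, E, ← Complex.exp_add]; congr 1; push_cast; ring

lemma E_zero : E 0 = 1 := by simp [E]

lemma E_int (n : ℤ) : E n = 1 := by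
  rw [E]; push_cast
  rw [show (2 * (π:ℂ) * (n:ℂ)) * I = n * (2 * π * I) by ring]
  exact Complex.exp_int_mul_two_pi_mul_I n

lemma norm_E (t : ℝ) : ‖E t‖ = 1 := Complex.norm_exp_ofReal_mul_I _

lemma E_neg (t : ℝ) : E (-t) = (starRingEnd ℂ) (E t) := by
  rw [E, E, ← Complex.exp_conj, map_mul, Complex.conj_ofReal, Complex.conj_I]
  congr 1; push_cast; ring

lemma continuous_E : Continuous E := by unfold E; fun_prop

lemma E_mul_nat (t : ℝ) (n : ℕ) : E (t * n) = E t ^ n := by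
  rw [E, E, ← Complex.exp_nat_mul]; congr 1; push_cast; ring

lemma E_nat_mul (t : ℝ) (n : ℕ) : E (n * t) = E t ^ n := by
  rw [mul_comm, E_mul_nat]

lemma E_eq_one_iff (t : ℝ) : E t = 1 ↔ ∃ n : ℤ, t = n := by
  constructor
  · intro h
    rw [E, Complex.exp_eq_one_iff] at h
    obtain ⟨n, hn⟩ := h
    refine ⟨n, ?_⟩
    have h1 : ((2 * π * t : ℝ) : ℂ) * I = ((2 * π * n : ℝ) : ℂ) * I := by
      rw [hn]; push_cast; ring
    have h2 := mul_right_cancel₀ I_ne_zero h1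
    have h3 : 2 * π * t = 2 * π * n := by exact_mod_cast h2
    have h4 : (2 * π) ≠ 0 := by positivity
    exact mul_left_cancel₀ h4 h3
  · rintro ⟨n, rfl⟩
    exact E_int n

/-! ### The mask -/

/-- The mask polynomial `(1/q) ∑_{j<q} E (b j ξ)`. -/
noncomputable def Mk (q b : ℕ) (ξ : ℝ) : ℂ := (q : ℂ)⁻¹ * ∑ j ∈ range q, E (b * j * ξ)

lemma Mk_zero {q b : ℕ} (hq : 0 < q) : Mk q b 0 = 1 := by
  have : (q : ℂ) ≠ 0 := by exact_mod_cast hq.ne'
  simp [Mk, E_zero, this]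

lemma Mk_eq_geom (q b : ℕ) (ξ : ℝ) : Mk q b ξ = (q : ℂ)⁻¹ * ∑ j ∈ range q, E (b * ξ) ^ j := by
  rw [Mk]
  congr 1
  apply sum_congr rfl
  intro j _
  rw [← E_mul_nat]
  congr 1
  ring

/-- `Mk` has period `1 / b`. -/
lemma Mk_periodic {q b : ℕ} (ξ t : ℝ) (n : ℤ) (h : b * t = n) : Mk q b (ξ + t) = Mk q b ξ := by
  rw [Mk_eq_geom, Mk_eq_geom, mul_add, E_add, h, E_int, mul_one]

lemma norm_Mk_le {q b : ℕ} (hq : 0 < q) (ξ : ℝ) : ‖Mk q b ξ‖ ≤ 1 := by
  rw [Mk, norm_mul, norm_inv, Complex.norm_natCast]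
  have h1 : ‖∑ j ∈ range q, E (b * j * ξ)‖ ≤ ∑ j ∈ range q, (1 : ℝ) :=
    (norm_sum_le _ _).trans (sum_le_sum fun j _ => (norm_E _).le)
  rw [sum_const, card_range, nsmul_eq_mul, mul_one] at h1
  have hq' : (0 : ℝ) < q := by exact_mod_cast hq
  rw [inv_mul_le_iff₀ hq', mul_one]
  exact h1

lemma continuous_Mk (q b : ℕ) : Continuous (Mk q b) := by
  unfold Mk
  exact continuous_const.mul (continuous_finset_sum _ fun j _ => continuous_E.comp (by fun_prop))

/-- zeros of the mask. -/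
lemma Mk_eq_zero {q b : ℕ} (hq : 0 < q) (hb : 0 < b) {z : ℤ} (hz : ¬ (q : ℤ) ∣ z) :
    Mk q b ((z : ℝ) / ((q * b : ℕ) : ℝ)) = 0 := by
  have hq' : (q : ℝ) ≠ 0 := by exact_mod_cast hq.ne'
  have hb' : (b : ℝ) ≠ 0 := by exact_mod_cast hb.ne'
  rw [Mk_eq_geom]
  have h1 : (b : ℝ) * ((z : ℝ) / ((q * b : ℕ) : ℝ)) = z / q := by
    push_cast; field_simp
  rw [h1]
  have hne : E ((z : ℝ) / q) ≠ 1 := by
    intro h
    rw [E_eq_one_iff] at h
    obtain ⟨n, hn⟩ := h
    apply hz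
    refine ⟨n, ?_⟩
    have : (z : ℝ) = q * n := by
      rw [← hn]; field_simp
    exact_mod_cast this
  rw [geom_sum_eq hne, ← E_mul_nat, div_mul_cancel₀ _ hq', E_int]
  simp

lemma Mk_ne_zero {q b : ℕ} (hq : 0 < q) (hb : 0 < b) {ξ : ℝ} (h : |ξ| < 1) :
    Mk q b (ξ / ((q * b : ℕ) : ℝ)) ≠ 0 := by
  have hq' : (q : ℝ) ≠ 0 := by exact_mod_cast hq.ne'
  have hqc : (q : ℂ) ≠ 0 := by exact_mod_cast hq.ne'
  have hb' : (b : ℝ) ≠ 0 := by exact_mod_cast hb.ne'
  rw [Mk_eq_geom]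
  have h1 : (b : ℝ) * (ξ / ((q * b : ℕ) : ℝ)) = ξ / q := by
    push_cast; field_simp
  rw [h1]
  by_cases hE : E (ξ / q) = 1
  · rw [hE]; simp [hqc]
  · rw [geom_sum_eq hE, ← E_mul_nat, div_mul_cancel₀ _ hq']
    intro h0
    rw [mul_eq_zero, div_eq_zero_iff] at h0
    rcases h0 with h0 | h0 | h0
    · exact inv_ne_zero hqc h0
    · rw [sub_eq_zero, E_eq_one_iff] at h0
      obtain ⟨n, hn⟩ := h0
      have hn0 : n = 0 := by
        rw [hn] at h
        have : |n| < 1 := by exact_mod_cast h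
        exact Int.abs_lt_one_iff.1 this
      rw [hn0] at hn
      apply hE
      rw [hn]
      simp [E_zero]
    · exact hE (sub_eq_zero.1 h0)

lemma sum_E_root {q : ℕ} (hq : 0 < q) {l l' : ℕ} (hl : l < q) (hl' : l' < q) :
    ∑ j ∈ range q, E (((l : ℝ) - l') / q * j) = if l = l' then (q : ℂ) else 0 := by
  have hq' : (q : ℝ) ≠ 0 := by exact_mod_cast hq.ne'
  split_ifs with h
  · subst h
    simp [E_zero]
  · have h1 : ∀ j ∈ range q, E (((l : ℝ) - l') / q * j) = E (((l : ℝ) - l') / q) ^ j :=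
      fun j _ => E_mul_nat _ _
    rw [sum_congr rfl h1]
    have hne : E (((l : ℝ) - l') / q) ≠ 1 := by
      intro h0
      rw [E_eq_one_iff] at h0
      obtain ⟨n, hn⟩ := h0
      have h2 : ((l : ℤ) - l') = q * n := by
        have : ((l : ℝ) - l') = q * n := by rw [← hn]; field_simp
        exact_mod_cast this
      have h3 : ((l : ℤ) - l') ≠ 0 := by omega
      have h4 : |((l : ℤ) - l')| < q := by rw [abs_lt]; omega
      exact h3 (Int.eq_zero_of_abs_lt_dvd ⟨n, h2⟩ h4)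
    rw [geom_sum_eq hne, ← E_mul_nat, div_mul_cancel₀ _ hq']
    have : E ((l : ℝ) - l') = 1 := by
      have := E_int ((l : ℤ) - l')
      push_cast at this
      exact this
    rw [this]; simp

/-- Parseval identity for the mask. -/
lemma Mk_parseval {q b : ℕ} (hq : 0 < q) (hb : 0 < b) (x : ℝ) (τ : ℕ → ℤ)
    (hτ : ∀ j < q, (q : ℤ) ∣ τ j - j) :
    ∑ j ∈ range q, ‖Mk q b (x + (τ j : ℝ) / ((q * b : ℕ) : ℝ))‖ ^ 2 = 1 := by
  have hq' : (q : ℝ) ≠ 0 := by exact_mod_cast hq.ne'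
  have hqc : (q : ℂ) ≠ 0 := by exact_mod_cast hq.ne'
  have hb' : (b : ℝ) ≠ 0 := by exact_mod_cast hb.ne'
  have h1 : ∀ j ∈ range q, (((‖Mk q b (x + (τ j : ℝ) / ((q * b : ℕ) : ℝ))‖ ^ 2 : ℝ)) : ℂ) =
      (q : ℂ)⁻¹ ^ 2 * ∑ l ∈ range q, ∑ l' ∈ range q,
        (E (b * l * x) * (starRingEnd ℂ) (E (b * l' * x))) * E (((l : ℝ) - l') / q * j) := by
    intro j hj
    have h2 : ∀ l : ℕ, E (b * l * (x + (τ j : ℝ) / ((q * b : ℕ) : ℝ))) =
        E (b * l * x) * E (l * j / q) := by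
      intro l
      obtain ⟨n, hn⟩ := hτ j (mem_range.1 hj)
      have h3 : b * l * (x + (τ j : ℝ) / ((q * b : ℕ) : ℝ)) =
          b * l * x + l * j / q + ((l * n : ℤ) : ℝ) := by
        have : (τ j : ℝ) = j + q * n := by
          have h4 : τ j = j + q * n := by linarith
          exact_mod_cast h4
        rw [this]; push_cast; field_simp; ring
      rw [h3, E_add, E_add, E_int, mul_one]
    rw [Complex.sq_norm, Complex.normSq_eq_conj_mul_self, mul_comm]
    rw [Mk]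
    simp_rw [h2]
    rw [map_mul, map_inv₀, Complex.conj_natCast, map_sum]
    rw [show ∀ u v w : ℂ, u * v * (u * w) = u ^ 2 * (v * w) from fun u v w => by ring]
    rw [sum_mul_sum]
    congr 1
    apply sum_congr rfl
    intro l _
    apply sum_congr rfl
    intro l' _
    rw [map_mul, ← E_neg (l' * j / q)]
    rw [show ((l : ℝ) - l') / q * j = l * j / q + -(l' * j / q) by ring, E_add]
    ring
  have h5 : ((∑ j ∈ range q, ‖Mk q b (x + (τ j : ℝ) / ((q * b : ℕ) : ℝ))‖ ^ 2 : ℝ) : ℂ) = 1 := by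
    rw [Complex.ofReal_sum, sum_congr rfl h1, ← mul_sum, sum_comm]
    have h6 : ∀ l ∈ range q, ∑ j ∈ range q, ∑ l' ∈ range q,
        (E (b * l * x) * (starRingEnd ℂ) (E (b * l' * x))) * E (((l : ℝ) - l') / q * j) = q := by
      intro l hl
      rw [sum_comm]
      have h7 : ∀ l' ∈ range q, ∑ j ∈ range q,
          (E (b * l * x) * (starRingEnd ℂ) (E (b * l' * x))) * E (((l : ℝ) - l') / q * j) =
          if l = l' then (q : ℂ) else 0 := by
        intro l' hl'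
        rw [← mul_sum, sum_E_root hq (mem_range.1 hl) (mem_range.1 hl')]
        split_ifs with h
        · subst h
          rw [Complex.mul_conj, Complex.normSq_eq_norm_sq, norm_E]
          simp
        · simp
      rw [sum_congr rfl h7]
      simp [mem_range.1 hl]
    rw [sum_congr rfl h6]
    simp
    field_simp
  exact_mod_cast h5

end Pool.Agent.Helper40.Beurling
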