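import Mathlib

set_option autoImplicit false

open Finset

namespace Pool.Agent.Helper40.Beurling

open Classical in
/-- The extra label at position `m` of the node `s`: the node is `m` followed by zeros up to
position `m`, and `m` is a moved index. -/
noncomputable def eps (K : Set ℕ) (m s : ℕ) : ℕ := if s = m ∧ m ∉ K then 1 else 0

lemma eps_le (K : Set ℕ) (m s : ℕ) : eps K m s ≤ 1 := by
  unfold eps; split_ifs <;> simp

/-- The label sum truncated at level `n`. -/
noncomputable def lam (p q : ℕ) (K : Set ℕ) (n r : ℕ) : ℕ :=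
  ∑ m ∈ range n, p ^ m * (r / q ^ m % q + q * eps K m (r % q ^ (m + 1)))

/-- The full label sum. -/
noncomputable def Lam (p q : ℕ) (K : Set ℕ) (r : ℕ) : ℕ := lam p q K (r + 1) r

variable {p q : ℕ} {K : Set ℕ}

lemma lam_succ (n r : ℕ) : lam p q K (n + 1) r =
    lam p q K n r + p ^ n * (r / q ^ n % q + q * eps K n (r % q ^ (n + 1))) := by
  rw [lam, sum_range_succ, lam]

lemma lam_mod (n r : ℕ) : lam p q K n (r % q ^ n) = lam p q K n r := by
  unfold lam
  apply sum_congr rfl
  intro m hm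
  rw [mem_range] at hm
  have h1 : q ^ n = q ^ m * q * q ^ (n - (m + 1)) := by
    rw [← pow_succ, ← pow_add]; congr 1; omega
  have h2 : r % q ^ n % q ^ (m + 1) = r % q ^ (m + 1) := by
    apply Nat.mod_mod_of_dvd
    exact pow_dvd_pow _ (by omega)
  have h3 : r % q ^ n / q ^ m % q = r / q ^ m % q := by
    rw [h1, mul_assoc, Nat.mod_mul_right_div_self]
    apply Nat.mod_mod_of_dvd
    exact Dvd.intro _ rfl
  rw [h2, h3]

lemma lam_congr {n r r' : ℕ} (h : r % q ^ n = r' % q ^ n) : lam p q K n r = lam p q K n r' := by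
  rw [← lam_mod n r, h, lam_mod]

/-- Labels depend on the residue. -/
lemma lam_add_mul (n r' j : ℕ) (hr : r' < q ^ n) (hj : j < q) :
    lam p q K (n + 1) (r' + j * q ^ n) = lam p q K n r' +
      p ^ n * (j + q * eps K n (r' + j * q ^ n)) := by
  have hq : 0 < q ^ n := by omega
  rw [lam_succ]
  congr 1
  · apply lam_congr
    rw [Nat.add_mul_mod_self_right]
  · congr 3
    · rw [Nat.add_mul_div_right _ _ hq, Nat.div_eq_of_lt hr, zero_add, Nat.mod_eq_of_lt hj]
    · rw [Nat.mod_eq_of_lt]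
      rw [pow_succ]
      have : r' + j * q ^ n < (j + 1) * q ^ n := by nlinarith
      calc r' + j * q ^ n < (j + 1) * q ^ n := this
        _ ≤ q * q ^ n := Nat.mul_le_mul_right _ hj
        _ = q ^ n * q := mul_comm _ _

lemma digit_le {m s : ℕ} (hq : 2 ≤ q) (r : ℕ) : r / q ^ m % q + q * eps K m (r % q ^ (m + 1)) ≤ q := by
  unfold eps
  split_ifs with h
  · have h1 : r / q ^ m % q = 0 := by
      have h2 := Nat.mod_pow_succ (b := q) (k := m) (x := r)
      rw [h.1] at h2
      have h3 : m < q ^ m := Nat.lt_pow_self (by omega)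
      by_contra hne
      have h4 : 1 ≤ r / q ^ m % q := Nat.one_le_iff_ne_zero.2 hne
      have h5 : q ^ m * 1 ≤ q ^ m * (r / q ^ m % q) := Nat.mul_le_mul_left _ h4
      have h6 : q ^ m * (r / q ^ m % q) ≤ m := (Nat.le_add_left _ _).trans_eq h2.symm
      omega
    omega
  · have : r / q ^ m % q < q := Nat.mod_lt _ (by omega)
    omega

/-- The truncated label sums are at most `(2/3) p^n`. -/
lemma lam_le (hq : 2 ≤ q) (hp : 2 * q ≤ p) (n r : ℕ) : 3 * lam p q K n r ≤ 2 * p ^ n := by
  induction n with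
  | zero => simp [lam]
  | succ n ih =>
    rw [lam_succ]
    have h1 := digit_le (K := K) (m := n) (s := 0) hq r
    have h2 : p ^ n * (r / q ^ n % q + q * eps K n (r % q ^ (n + 1))) ≤ p ^ n * q :=
      Nat.mul_le_mul_left _ h1
    have h3 : p ^ n * (2 * q) ≤ p ^ n * p := Nat.mul_le_mul_left _ hp
    have h4 : p ^ n * 2 ≤ p ^ n * q := Nat.mul_le_mul_left _ hq
    rw [pow_succ p n]
    nlinarith

lemma lam_lt (hq : 2 ≤ q) (hp : 2 * q ≤ p) (n r : ℕ) : lam p q K n r < p ^ n := by
  have h1 := lam_le (K := K) hq hp n r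
  have : 0 < p ^ n := pow_pos (by omega) n
  omega

open Classical in
/-- For `r < q^n` the full label sum is the truncated one, plus possibly `q p^r`. -/
lemma lam_of_lt (hq : 2 ≤ q) {n N r : ℕ} (hr : r < q ^ n) (hnN : n ≤ N) :
    lam p q K N r = lam p q K n r + (if n ≤ r ∧ r < N ∧ r ∉ K then q * p ^ r else 0) := by
  induction N, hnN using Nat.le_induction with
  | base =>
    rw [if_neg]
    · rfl
    · omega
  | succ N hN ih =>
    rw [lam_succ, ih, add_assoc]
    congr 1
    have hrN : r < q ^ N := hr.trans_le (Nat.pow_le_pow_right (by omega) hN)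
    have hrN' : r < q ^ (N + 1) := hr.trans_le (Nat.pow_le_pow_right (by omega) (by omega))
    rw [Nat.mod_eq_of_lt hrN', Nat.div_eq_of_lt hrN, Nat.zero_mod, zero_add]
    unfold eps
    by_cases h1 : r = N
    · subst h1
      by_cases hK : r ∈ K
      · simp [hK]
      · simp only [hK, not_false_eq_true, and_true, lt_irrefl, and_false, if_false, true_and,
          if_true]
        rw [if_pos ⟨hN, Nat.lt_succ_self r⟩]
        ring
    · have h2 : (r < N + 1) ↔ (r < N) := by omega
      simp [h1, h2]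

open Classical in
lemma Lam_eq (hq : 2 ≤ q) {n r : ℕ} (hr : r < q ^ n) :
    Lam p q K r = lam p q K n r + (if n ≤ r ∧ r ∉ K then q * p ^ r else 0) := by
  rw [Lam]
  rcases le_or_gt n (r + 1) with h | h
  · rw [lam_of_lt hq hr h]
    simp
  · have h1 : r < q ^ (r + 1) := (Nat.lt_pow_self (by omega : 1 < q)).trans_le
      (Nat.pow_le_pow_right (by omega) (by omega))
    rw [lam_of_lt (N := n) hq h1 h.le]
    rw [if_neg, if_neg]
    · rfl
    · omega
    · omega

/-- The label sum at any level above `r`. -/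
lemma Lam_eq_lam (hq : 2 ≤ q) {n r : ℕ} (hr : r < n) : Lam p q K r = lam p q K n r := by
  have h1 : r < q ^ n := hr.trans (Nat.lt_pow_self (by omega : 1 < q))
  rw [Lam_eq hq h1, if_neg]
  · rfl
  · omega

/-- High positions contribute multiples of `p^k`. -/
lemma lam_dvd {k n : ℕ} (h : k ≤ n) (r : ℕ) : ∃ u : ℕ, lam p q K n r = lam p q K k r + p ^ k * u := by
  induction n, h using Nat.le_induction with
  | base => exact ⟨0, by simp⟩
  | succ n hn ih =>
    obtain ⟨u, hu⟩ := ih
    refine ⟨u + p ^ (n - k) * (r / q ^ n % q + q * eps K n (r % q ^ (n + 1))), ?_⟩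
    rw [lam_succ, hu]
    have : p ^ n = p ^ k * p ^ (n - k) := by rw [← pow_add]; congr 1; omega
    rw [this]; ring

/-- Differences of label sums are zeros of the Fourier transform. -/
lemma Lam_sub (hq : 2 ≤ q) (hqp : q ∣ p) {r r' : ℕ} (h : r ≠ r') :
    ∃ (j : ℕ) (z : ℤ), (Lam p q K r : ℤ) - Lam p q K r' = (p : ℤ) ^ j * z ∧ ¬ (q : ℤ) ∣ z := by
  have hex : ∃ k, r % q ^ k ≠ r' % q ^ k := by
    refine ⟨max r r' + 1, ?_⟩
    rw [Nat.mod_eq_of_lt, Nat.mod_eq_of_lt]
    · exact h
    · exact (show r' < max r r' + 1 by omega).trans (Nat.lt_pow_self (by omega : 1 < q))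
    · exact (show r < max r r' + 1 by omega).trans (Nat.lt_pow_self (by omega : 1 < q))
  classical
  set k := Nat.find hex with hk
  have hk1 : r % q ^ k ≠ r' % q ^ k := Nat.find_spec hex
  have hk0 : k ≠ 0 := by
    intro h0
    rw [h0] at hk1
    simp [Nat.mod_one] at hk1
  obtain ⟨j, hj⟩ := Nat.exists_eq_succ_of_ne_zero hk0
  have hj1 : r % q ^ j = r' % q ^ j := by
    by_contra hne
    exact Nat.find_min hex (m := j) (by omega) hne
  rw [hj, Nat.succ_eq_add_one, Nat.mod_pow_succ, Nat.mod_pow_succ, hj1] at hk1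
  have hd : r / q ^ j % q ≠ r' / q ^ j % q := by
    intro h0
    rw [h0] at hk1
    exact hk1 rfl
  -- expansions
  set N := max (j + 1) (max r r' + 1) with hN
  have hr := Lam_eq_lam (p := p) (K := K) hq (show r < N by omega)
  have hr' := Lam_eq_lam (p := p) (K := K) hq (show r' < N by omega)
  obtain ⟨u, hu⟩ := lam_dvd (p := p) (q := q) (K := K) (show j + 1 ≤ N by omega) r
  obtain ⟨u', hu'⟩ := lam_dvd (p := p) (q := q) (K := K) (show j + 1 ≤ N by omega) r'
  rw [lam_succ] at hu hu'
  rw [lam_congr hj1] at hu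
  obtain ⟨b, rfl⟩ := hqp
  refine ⟨j, ((r / q ^ j % q : ℕ) : ℤ) - (r' / q ^ j % q : ℕ) +
    q * ((eps K j (r % q ^ (j + 1)) : ℤ) - eps K j (r' % q ^ (j + 1)) + b * (u - u')), ?_, ?_⟩
  · rw [hr, hr', hu, hu']
    push_cast
    ring
  · intro hdvd
    rw [dvd_add_left (Dvd.intro _ rfl)] at hdvd
    have h1 : r / q ^ j % q < q := Nat.mod_lt _ (by omega)
    have h2 : r' / q ^ j % q < q := Nat.mod_lt _ (by omega)
    have h3 : ((r / q ^ j % q : ℕ) : ℤ) - (r' / q ^ j % q : ℕ) = 0 := by
      apply Int.eq_zero_of_abs_lt_dvd hdvd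
      rw [abs_lt]
      omega
    omega

lemma Lam_injective (hq : 2 ≤ q) (hqp : q ∣ p) (hp0 : 0 < p) :
    Function.Injective (Lam p q K) := by
  intro r r' h
  by_contra hne
  obtain ⟨j, z, h1, h2⟩ := Lam_sub (K := K) hq hqp hne
  rw [h, sub_self] at h1
  have hp : p ≠ 0 := hp0.ne'
  have : z = 0 := by
    rcases mul_eq_zero.1 h1.symm with h3 | h3
    · exact absurd h3 (pow_ne_zero _ (by exact_mod_cast hp))
    · exact h3
  rw [this] at h2
  exact h2 (dvd_zero _)

end Pool.Agent.Helper40.Beurling
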