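import Pool.Agent.Helper40.Beurling.Four
import Pool.Agent.Helper40.Beurling.Lam

set_option autoImplicit false

open MeasureTheory Complex Finset Filter Topology
open scoped ENNReal Real

namespace Pool.Agent.Helper40.Beurling

variable {q b : ℕ} {μ : Measure ℝ} {K : Set ℕ}

lemma sum_range_pow_succ {M : Type*} [AddCommMonoid M] (hq : 0 < q) (n : ℕ) (f : ℕ → M) :
    ∑ r ∈ range (q ^ (n + 1)), f r = ∑ r' ∈ range (q ^ n), ∑ j ∈ range q, f (r' + j * q ^ n) := by
  rw [← sum_product']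
  symm
  have hqn : 0 < q ^ n := pow_pos hq n
  refine sum_nbij' (fun x => x.1 + x.2 * q ^ n) (fun r => (r % q ^ n, r / q ^ n)) ?_ ?_ ?_ ?_ ?_
  · rintro ⟨r', j⟩ h
    simp only [mem_product, mem_range] at h ⊢
    have : r' + j * q ^ n < (j + 1) * q ^ n := by nlinarith [h.1]
    calc r' + j * q ^ n < (j + 1) * q ^ n := this
      _ ≤ q * q ^ n := Nat.mul_le_mul_right _ h.2
      _ = q ^ (n + 1) := by rw [pow_succ, mul_comm]
  · intro r hr
    simp only [mem_product, mem_range] at hr ⊢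
    refine ⟨Nat.mod_lt _ hqn, ?_⟩
    rw [Nat.div_lt_iff_lt_mul hqn, mul_comm, ← pow_succ]
    exact hr
  · rintro ⟨r', j⟩ h
    simp only [mem_product, mem_range] at h
    simp only [Prod.mk.injEq]
    refine ⟨?_, ?_⟩
    · rw [Nat.add_mul_mod_self_right, Nat.mod_eq_of_lt h.1]
    · rw [Nat.add_mul_div_right _ _ hqn, Nat.div_eq_of_lt h.1, zero_add]
  · intro r _
    simp only
    rw [mul_comm]
    exact Nat.mod_add_div r (q ^ n)
  · rintro ⟨r', j⟩ _
    rfl

/-- The level-`n` Parseval identity. -/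
lemma level_parseval (hq : 0 < q) (hb : 0 < b) (n : ℕ) (ξ : ℝ) :
    ∑ r ∈ range (q ^ n), ‖P q b n (ξ + lam (q * b) q K n r)‖ ^ 2 = 1 := by
  induction n with
  | zero => simp [P]
  | succ n ih =>
    have hp : ((q * b : ℕ) : ℝ) ≠ 0 := by
      have : q * b ≠ 0 := (Nat.mul_pos hq hb).ne'
      exact_mod_cast this
    rw [sum_range_pow_succ hq, ← ih]
    apply sum_congr rfl
    intro r' hr'
    rw [mem_range] at hr'
    have h1 : ∀ j ∈ range q, ‖P q b (n + 1) (ξ + lam (q * b) q K (n + 1) (r' + j * q ^ n))‖ ^ 2 =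
        ‖P q b n (ξ + lam (q * b) q K n r')‖ ^ 2 *
        ‖Mk q b ((ξ + lam (q * b) q K n r') / ((q * b : ℕ) : ℝ) ^ (n + 1) +
          (((j : ℤ) + q * eps K n (r' + j * q ^ n) : ℤ) : ℝ) / ((q * b : ℕ) : ℝ))‖ ^ 2 := by
      intro j hj
      rw [mem_range] at hj
      rw [lam_add_mul n r' j hr' hj, P_succ]
      have h2 : ξ + ((lam (q * b) q K n r' + (q * b) ^ n * (j + q * eps K n (r' + j * q ^ n)) : ℕ) : ℝ)
          = ξ + lam (q * b) q K n r' +
            (((j : ℤ) + q * eps K n (r' + j * q ^ n) : ℤ) : ℝ) * ((q * b : ℕ) : ℝ) ^ n := by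
        push_cast; ring
      rw [h2, P_periodic hq hb, norm_mul, mul_pow]
      congr 4
      rw [add_div]
      congr 1
      rw [pow_succ]
      field_simp
    rw [sum_congr rfl h1, ← mul_sum, Mk_parseval hq hb _
      (fun j => (j : ℤ) + q * eps K n (r' + j * q ^ n))]
    · rw [mul_one]
    · intro j _
      refine ⟨eps K n (r' + j * q ^ n), by ring⟩

lemma P_Lam (hq : 2 ≤ q) (hb : 0 < b) {n r : ℕ} (hr : r < q ^ n) (ξ : ℝ) :
    P q b n (ξ + Lam (q * b) q K r) = P q b n (ξ + lam (q * b) q K n r) := by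
  classical
  rw [Lam_eq hq hr]
  split_ifs with h
  · have h1 : r = (r - n) + n := by omega
    have h2 : ξ + ((lam (q * b) q K n r + q * (q * b) ^ r : ℕ) : ℝ) = ξ + lam (q * b) q K n r +
        ((q * (q * b) ^ (r - n) : ℕ) : ℤ) * ((q * b : ℕ) : ℝ) ^ n := by
      have h3 : ((q * b : ℕ) : ℝ) ^ r = ((q * b : ℕ) : ℝ) ^ (r - n) * ((q * b : ℕ) : ℝ) ^ n := by
        rw [← pow_add, ← h1]
      push_cast at h3 ⊢
      rw [h3]
      ring
    rw [h2, P_periodic (by omega) hb]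
  · simp

/-- Uniform lower bound of the tail factor. -/
lemma tail_lower (hq : 2 ≤ q) (hb : 2 ≤ b) (hμ : IsSelfSimilarMeasure (q * b) q μ) {c : ℝ}
    (hc : 0 < c) (hcF : ∀ ξ ∈ Set.Icc (-(3/4) : ℝ) (3/4), c ≤ ‖F μ ξ‖) {n r : ℕ} {ξ : ℝ}
    (hξ : |ξ| ≤ ((q * b : ℕ) : ℝ) ^ n / 12) (hr : r < q ^ n) :
    c ^ 2 ≤ ‖F μ ((ξ + Lam (q * b) q K r) / ((q * b : ℕ) : ℝ) ^ n)‖ := by
  haveI := hμ.isProbabilityMeasure
  have hq0 : 0 < q := by omega
  have hp4 : 4 ≤ q * b := by nlinarith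
  have hp4' : (4 : ℝ) ≤ ((q * b : ℕ) : ℝ) := by exact_mod_cast hp4
  have hb0 : 0 < b := by omega
  have hb' : (2 : ℝ) ≤ (b : ℝ) := by exact_mod_cast hb
  have hc1 : c ≤ 1 := by
    have := hcF 0 ⟨by norm_num, by norm_num⟩
    rwa [F_zero, norm_one] at this
  set p : ℝ := ((q * b : ℕ) : ℝ) with hp
  have hpn : 0 < p ^ n := by positivity
  set x : ℝ := (ξ + lam (q * b) q K n r) / p ^ n with hx
  have hlam : (lam (q * b) q K n r : ℝ) ≤ 2 / 3 * p ^ n := by
    have h1 := lam_le (p := q * b) (K := K) hq (by nlinarith) n r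
    have h2 : (3 : ℝ) * lam (q * b) q K n r ≤ 2 * p ^ n := by rw [hp]; exact_mod_cast h1
    linarith
  have hlam0 : (0 : ℝ) ≤ lam (q * b) q K n r := by positivity
  have hx1 : x ≤ 3 / 4 := by
    rw [hx, div_le_iff₀ hpn]
    have := (abs_le.1 hξ).2
    linarith
  have hx2 : -(1/12) ≤ x := by
    rw [hx, le_div_iff₀ hpn]
    have := (abs_le.1 hξ).1
    linarith
  have hxF : c ≤ ‖F μ x‖ := hcF x ⟨by linarith, hx1⟩
  classical
  rw [Lam_eq hq hr]
  split_ifs with h
  · obtain ⟨t, ht⟩ : ∃ t, r = t + n := ⟨r - n, by omega⟩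
    have h1 : (ξ + ((lam (q * b) q K n r + q * (q * b) ^ r : ℕ) : ℝ)) / p ^ n =
        x + ((1 : ℤ) : ℝ) * q * p ^ t := by
      have h2 : ((q * b : ℕ) : ℝ) ^ r = p ^ t * p ^ n := by rw [ht, pow_add]
      have h3 : ((lam (q * b) q K n r + q * (q * b) ^ r : ℕ) : ℝ) =
          lam (q * b) q K n r + q * ((q * b : ℕ) : ℝ) ^ r := by push_cast; ring
      rw [h3, h2, hx]
      field_simp
      push_cast
      ring
    rw [h1, F_eq_P hq0 hμ (t + 1), P_periodic' hq0 hb0, norm_mul, pow_two]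
    have h4 : c ≤ ‖P q b (t + 1) x‖ := by
      refine hxF.trans ?_
      rw [F_eq_P hq0 hμ (t + 1) x, norm_mul]
      exact mul_le_of_le_one_right (norm_nonneg _) (norm_F_le _ _)
    have h5 : c ≤ ‖F μ ((x + ((1 : ℤ) : ℝ) * q * p ^ t) / p ^ (t + 1))‖ := by
      apply hcF
      have h6 : (x + ((1 : ℤ) : ℝ) * q * p ^ t) / p ^ (t + 1) = x / p ^ (t + 1) + 1 / b := by
        have hq' : (q : ℝ) ≠ 0 := by exact_mod_cast hq0.ne'
        have h7 : p = q * b := by rw [hp]; push_cast; ring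
        rw [add_div]
        congr 1
        rw [pow_succ]
        have : p ≠ 0 := by positivity
        have hb'' : (b : ℝ) ≠ 0 := by positivity
        field_simp
        rw [h7]
        push_cast
        ring
      rw [h6]
      have h8 : 4 ≤ p ^ (t + 1) := by
        rw [pow_succ]
        have : 1 ≤ p ^ t := one_le_pow₀ (by linarith)
        nlinarith
      have h9 : |x / p ^ (t + 1)| ≤ 3 / 16 := by
        rw [abs_div, abs_of_pos (by positivity : 0 < p ^ (t + 1)), div_le_iff₀ (by positivity)]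
        have : |x| ≤ 3 / 4 := by rw [abs_le]; constructor <;> linarith
        nlinarith
      have h10 : 1 / (b : ℝ) ≤ 1 / 2 := one_div_le_one_div_of_le (by norm_num) hb'
      have h11 : 0 ≤ 1 / (b : ℝ) := by positivity
      have h12 := abs_le.1 h9
      constructor
      · linarith [h12.1]
      · linarith [h12.2]
    exact mul_le_mul h4 h5 hc.le (norm_nonneg _)
  · rw [add_zero]
    refine le_trans ?_ hxF
    nlinarith

/-- Completeness: the sum is at least one. -/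
lemma one_le_tsum (hq : 2 ≤ q) (hb : 2 ≤ b) (hμ : IsSelfSimilarMeasure (q * b) q μ) (ξ : ℝ)
    (hs : Summable fun r : ℕ => ‖F μ (ξ + Lam (q * b) q K r)‖ ^ 2) :
    1 ≤ ∑' r : ℕ, ‖F μ (ξ + Lam (q * b) q K r)‖ ^ 2 := by
  haveI := hμ.isProbabilityMeasure
  have hq0 : 0 < q := by omega
  have hb0 : 0 < b := by omega
  obtain ⟨c, hc, hcF⟩ := exists_lower hq0 hb hμ
  have hp4 : 4 ≤ q * b := by nlinarith
  have hp4' : (4 : ℝ) ≤ ((q * b : ℕ) : ℝ) := by exact_mod_cast hp4
  set p : ℝ := ((q * b : ℕ) : ℝ) with hp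
  set a : ℕ → ℝ := fun r => ‖F μ (ξ + Lam (q * b) q K r)‖ ^ 2 with ha
  set S : ℝ := ∑' r, a r with hS
  have hqt : Tendsto (fun n : ℕ => q ^ n) atTop atTop :=
    tendsto_pow_atTop_atTop_of_one_lt (by omega)
  have hlim : Tendsto (fun n : ℕ => ∑ r ∈ range (q ^ n), a r) atTop (𝓝 S) :=
    hs.hasSum.tendsto_sum_nat.comp hqt
  -- estimate at level n, m
  have hpt : Tendsto (fun n : ℕ => p ^ n / 12) atTop atTop := by
    apply Tendsto.atTop_div_const (by norm_num)
    exact tendsto_pow_atTop_atTop_of_one_lt (by linarith)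
  obtain ⟨n₀, hn₀⟩ := (hpt.eventually_ge_atTop |ξ|).exists_forall_of_atTop
  have key : ∀ n, c ^ 4 * (1 - ∑ r ∈ range (q ^ n), a r) ≤ S - ∑ r ∈ range (q ^ n), a r := by
    intro n
    -- limit in m
    have h1 : Tendsto (fun m : ℕ => c ^ 4 *
        (1 - ∑ r ∈ range (q ^ n), ‖P q b m (ξ + lam (q * b) q K m r)‖ ^ 2)) atTop
        (𝓝 (c ^ 4 * (1 - ∑ r ∈ range (q ^ n), a r))) := by
      apply Tendsto.const_mul
      apply Tendsto.const_sub
      apply tendsto_finset_sum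
      intro r hr
      rw [mem_range] at hr
      have h2 : Tendsto (fun m : ℕ => (ξ + Lam (q * b) q K r) / p ^ m) atTop (𝓝 0) := by
        apply Tendsto.div_atTop tendsto_const_nhds
        exact tendsto_pow_atTop_atTop_of_one_lt (by linarith)
      have h3 : Tendsto (fun m : ℕ => ‖F μ ((ξ + Lam (q * b) q K r) / p ^ m)‖ ^ 2) atTop
          (𝓝 1) := by
        have h20 : Continuous fun x => ‖F μ x‖ ^ 2 := (continuous_F μ).norm.pow 2
        have := h20.tendsto 0
        simp only [F_zero, norm_one, one_pow] at this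
        exact this.comp h2
      have h4 : Tendsto (fun m : ℕ => a r / ‖F μ ((ξ + Lam (q * b) q K r) / p ^ m)‖ ^ 2) atTop
          (𝓝 (a r)) := by
        have := (tendsto_const_nhds (x := a r)).div h3 one_ne_zero
        rwa [div_one] at this
      refine h4.congr' ?_
      have h5 : ∀ᶠ m : ℕ in atTop, ‖F μ ((ξ + Lam (q * b) q K r) / p ^ m)‖ ^ 2 ≠ 0 :=
        h3.eventually_ne one_ne_zero
      filter_upwards [h5, eventually_ge_atTop n] with m hm hnm
      have hrm : r < q ^ m := hr.trans_le (Nat.pow_le_pow_right hq0 hnm)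
      rw [div_eq_iff hm, ← mul_pow, ← norm_mul, ← P_Lam hq hb0 hrm, ← F_eq_P hq0 hμ]
    refine le_of_tendsto h1 ?_
    filter_upwards [eventually_ge_atTop (max n n₀)] with m hm
    have hnm : n ≤ m := le_trans (le_max_left _ _) hm
    have hn0m : n₀ ≤ m := le_trans (le_max_right _ _) hm
    have h6 : ∑ r ∈ range (q ^ m), a r ≤ S :=
      hs.sum_le_tsum _ fun r _ => by positivity
    have hsub : range (q ^ n) ⊆ range (q ^ m) :=
      range_subset_range.2 (Nat.pow_le_pow_right hq0 hnm)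
    have h7 := sum_sdiff hsub (f := a)
    have h8 := sum_sdiff hsub (f := fun r => ‖P q b m (ξ + lam (q * b) q K m r)‖ ^ 2)
    rw [level_parseval hq0 hb0 m ξ] at h8
    have h9 : c ^ 4 * ∑ r ∈ range (q ^ m) \ range (q ^ n),
        ‖P q b m (ξ + lam (q * b) q K m r)‖ ^ 2 ≤ ∑ r ∈ range (q ^ m) \ range (q ^ n), a r := by
      rw [mul_sum]
      apply sum_le_sum
      intro r hr
      rw [Finset.mem_sdiff, mem_range] at hr
      have h10 := tail_lower (K := K) hq hb hμ hc hcF (hn₀ m hn0m) hr.1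
      rw [ha]
      simp only
      rw [F_eq_P hq0 hμ m, P_Lam hq hb0 hr.1, norm_mul, mul_pow, mul_comm]
      apply mul_le_mul_of_nonneg_left _ (by positivity)
      calc c ^ 4 = (c ^ 2) ^ 2 := by ring
        _ ≤ _ := pow_le_pow_left₀ (by positivity) h10 2
    rw [show (1 : ℝ) - ∑ r ∈ range (q ^ n), ‖P q b m (ξ + lam (q * b) q K m r)‖ ^ 2 =
      ∑ r ∈ range (q ^ m) \ range (q ^ n), ‖P q b m (ξ + lam (q * b) q K m r)‖ ^ 2 by linarith]
    linarith
  have h11 : c ^ 4 * (1 - S) ≤ S - S := by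
    have hA := (hlim.const_sub 1).const_mul (c ^ 4)
    have hB := hlim.const_sub S
    exact le_of_tendsto_of_tendsto' hA hB key
  rw [sub_self] at h11
  have h12 : 0 < c ^ 4 := by positivity
  by_contra hlt
  push_neg at hlt
  have : 0 < c ^ 4 * (1 - S) := mul_pos h12 (by linarith)
  linarith

end Pool.Agent.Helper40.Beurling
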