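import Mathlib

set_option autoImplicit false

open MeasureTheory
open scoped ENNReal

namespace Pool.Agent.Helper40.Beurling

/-- `μ` is a self-similar Borel probability measure for the maps `f_d (x) = p⁻¹ (x + d)`,
`d ∈ (p/q) {0, …, q-1}`, with equal weights `1/q`: `μ = (1/q) ∑_d μ ∘ f_d⁻¹`. -/
structure IsSelfSimilarMeasure (p q : ℕ) (μ : Measure ℝ) : Prop where
  isProbabilityMeasure : IsProbabilityMeasure μ
  selfSimilar : μ = (q : ℝ≥0∞)⁻¹ • ∑ j ∈ Finset.range q,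
    μ.map (fun x : ℝ => (p : ℝ)⁻¹ * (x + (p : ℝ) / q * j))

/-- `Λ` is a spectrum of `μ`: it is countable and the exponentials `e_λ (x) = exp (2 π i λ x)`,
`λ ∈ Λ`, form an orthonormal (Hilbert) basis of `L²(μ)`. -/
def IsSpectrum (μ : Measure ℝ) (Λ : Set ℝ) : Prop :=
  Λ.Countable ∧ ∃ B : HilbertBasis Λ ℂ (Lp ℂ 2 μ), ∀ l : Λ,
    (B l : ℝ → ℂ) =ᵐ[μ] fun x => Complex.exp (2 * Real.pi * Complex.I * (l : ℝ) * x)

/-- The upper `r`-Beurling density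
`D_r^+ (Λ) = limsup_{h → ∞} sup_x #(Λ ∩ (x - h, x + h)) / h ^ r`, with values in `[0, ∞]`. -/
noncomputable def upperBeurlingDensity (r : ℝ) (Λ : Set ℝ) : ℝ≥0∞ :=
  Filter.limsup (fun h : ℝ => ⨆ x : ℝ,
    ((Λ ∩ Set.Ioo (x - h) (x + h)).encard : ℝ≥0∞) / ENNReal.ofReal (h ^ r)) Filter.atTop

end Pool.Agent.Helper40.Beurling
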