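import Mathlib
import Pool.Agent.Helper40.Beurling.Defs

set_option autoImplicit false

open Filter Topology Set
open scoped ENNReal

namespace Pool.Agent.Helper40.Beurling

/-- The number of points in a window. -/
noncomputable def cnt (Λ : Set ℝ) (x h : ℝ) : ℝ≥0∞ := ((Λ ∩ Ioo (x - h) (x + h)).encard : ℝ≥0∞)

lemma ubd_eq (r : ℝ) (Λ : Set ℝ) : upperBeurlingDensity r Λ =
    limsup (fun h : ℝ => ⨆ x : ℝ, cnt Λ x h / ENNReal.ofReal (h ^ r)) atTop := rfl

lemma cnt_mono {A B : Set ℝ} (hAB : A ⊆ B) (x h : ℝ) : cnt A x h ≤ cnt B x h := by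
  unfold cnt
  have := encard_le_encard (inter_subset_inter_left (Ioo (x - h) (x + h)) hAB)
  exact_mod_cast this

lemma cnt_union_le (A B : Set ℝ) (x h : ℝ) : cnt (A ∪ B) x h ≤ cnt A x h + cnt B x h := by
  unfold cnt
  rw [union_inter_distrib_right]
  have := encard_union_le (A ∩ Ioo (x - h) (x + h)) (B ∩ Ioo (x - h) (x + h))
  exact_mod_cast this

lemma ubd_le_add {r : ℝ} {A B : Set ℝ} {ε : ℝ≥0∞}
    (h : ∀ᶠ h : ℝ in atTop, ∀ x, cnt A x h ≤ cnt B x h + ε * ENNReal.ofReal (h ^ r)) :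
    upperBeurlingDensity r A ≤ upperBeurlingDensity r B + ε := by
  rw [ubd_eq, ubd_eq, ← limsup_add_const atTop _ ε (by isBoundedDefault) (by isBoundedDefault)]
  apply limsup_le_limsup _ (by isBoundedDefault) (by isBoundedDefault)
  filter_upwards [h, eventually_gt_atTop 0] with h hh hpos
  apply iSup_le
  intro x
  have H0 : ENNReal.ofReal (h ^ r) ≠ 0 := by
    rw [Ne, ENNReal.ofReal_eq_zero, not_le]
    positivity
  have H1 : ENNReal.ofReal (h ^ r) ≠ ⊤ := ENNReal.ofReal_ne_top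
  calc cnt A x h / ENNReal.ofReal (h ^ r)
      ≤ (cnt B x h + ε * ENNReal.ofReal (h ^ r)) / ENNReal.ofReal (h ^ r) :=
        ENNReal.div_le_div_right (hh x) _
    _ = cnt B x h / ENNReal.ofReal (h ^ r) + ε := by
        rw [ENNReal.add_div, ENNReal.mul_div_cancel_right H0 H1]
    _ ≤ (⨆ x : ℝ, cnt B x h / ENNReal.ofReal (h ^ r)) + ε := by
        gcongr
        exact le_iSup (fun x => cnt B x h / ENNReal.ofReal (h ^ r)) x

lemma ubd_mono {r : ℝ} {A B : Set ℝ} (hAB : A ⊆ B) :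
    upperBeurlingDensity r A ≤ upperBeurlingDensity r B := by
  have := ubd_le_add (r := r) (A := A) (B := B) (ε := 0)
    (Eventually.of_forall fun h x => by rw [zero_mul, add_zero]; exact cnt_mono hAB x h)
  rwa [add_zero] at this

lemma ubd_empty {r : ℝ} : upperBeurlingDensity r ∅ = 0 := by
  rw [ubd_eq]
  have : (fun h : ℝ => ⨆ x : ℝ, cnt ∅ x h / ENNReal.ofReal (h ^ r)) = fun _ => 0 := by
    ext h
    simp [cnt]
  rw [this]
  simp

lemma ubd_le_const {r : ℝ} {A : Set ℝ} {C : ℝ≥0∞}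
    (h : ∀ᶠ h : ℝ in atTop, ∀ x, cnt A x h ≤ C * ENNReal.ofReal (h ^ r)) :
    upperBeurlingDensity r A ≤ C := by
  have := ubd_le_add (r := r) (A := A) (B := ∅) (ε := C) (by
    filter_upwards [h] with h hh x
    exact (hh x).trans (le_add_left le_rfl))
  rwa [ubd_empty, zero_add] at this

/-- Lower bound from a sequence of windows. -/
lemma le_ubd_of_frequently {r : ℝ} {A : Set ℝ} {C : ℝ≥0∞}
    (h : ∃ᶠ h : ℝ in atTop, 0 < h ∧ ∃ x, C * ENNReal.ofReal (h ^ r) ≤ cnt A x h) :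
    C ≤ upperBeurlingDensity r A := by
  rw [ubd_eq]
  apply le_limsup_of_frequently_le'
  refine h.mono ?_
  rintro h ⟨hpos, x, hx⟩
  have H0 : ENNReal.ofReal (h ^ r) ≠ 0 := by
    rw [Ne, ENNReal.ofReal_eq_zero, not_le]
    positivity
  have H1 : ENNReal.ofReal (h ^ r) ≠ ⊤ := ENNReal.ofReal_ne_top
  refine le_trans ?_ (le_iSup _ x)
  rw [ENNReal.le_div_iff_mul_le (Or.inl H0) (Or.inl H1)]
  exact hx

end Pool.Agent.Helper40.Beurling
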