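import Pool.Agent.Helper40.Beurling.Lam
import Pool.Agent.Helper40.Beurling.Dens

set_option autoImplicit false

open Filter Topology Set
open scoped ENNReal

namespace Pool.Agent.Helper40.Beurling

variable {p q : ℕ} {K : Set ℕ}

/-! ### The unlabelled map -/

/-- The frequencies `∑ a_i p^i` of `∑ a_i q^i`. -/
noncomputable def l0 (p q : ℕ) (n : ℕ) : ℕ := Lam p q Set.univ n

lemma eps_univ (m s : ℕ) : eps Set.univ m s = 0 := by simp [eps]

lemma l0_eq (hq : 2 ≤ q) {N n : ℕ} (hn : n < q ^ N) : l0 p q n = lam p q Set.univ N n := by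
  rw [l0, Lam_eq hq hn]
  simp

lemma lam_univ_add (m k n : ℕ) : lam p q Set.univ (m + k) n =
    lam p q Set.univ m n + p ^ m * lam p q Set.univ k (n / q ^ m) := by
  unfold lam
  rw [Finset.sum_range_add, Finset.mul_sum]
  congr 1
  apply Finset.sum_congr rfl
  intro i _
  rw [eps_univ, eps_univ, Nat.div_div_eq_div_mul, ← pow_add, pow_add p]
  ring

lemma l0_split (hq : 2 ≤ q) (m n : ℕ) :
    l0 p q n = lam p q Set.univ m n + p ^ m * l0 p q (n / q ^ m) := by
  have hq1 : 1 < q := by omega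
  have h1 : n < q ^ n := Nat.lt_pow_self hq1
  have h2 : n < q ^ (m + n) := h1.trans_le (Nat.pow_le_pow_right (by omega) (by omega))
  have h3 : n / q ^ m < q ^ n := (Nat.div_le_self _ _).trans_lt h1
  rw [l0_eq hq h2, l0_eq hq h3, lam_univ_add]

lemma l0_injective (hq : 2 ≤ q) (hqp : q ∣ p) (hp : 0 < p) : Function.Injective (l0 p q) :=
  Lam_injective hq hqp hp

/-! ### Counting through an injective parametrisation -/

lemma cnt_image {f : ℕ → ℝ} (hf : Function.Injective f) (S : Set ℕ) (x h : ℝ) :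
    cnt (f '' S) x h = ((S ∩ f ⁻¹' (Ioo (x - h) (x + h))).encard : ℝ≥0∞) := by
  rw [cnt, ← image_inter_preimage, hf.injOn.encard_image]

lemma encard_le_ofReal {S : Set ℕ} {β : Type*} (T : Finset β) (g : ℕ → β)
    (hmaps : MapsTo g S (T : Set β)) (hinj : InjOn g S) {C : ℝ} (hC : (T.card : ℝ) ≤ C) :
    (S.encard : ℝ≥0∞) ≤ ENNReal.ofReal C := by
  have h1 : S.encard ≤ (T : Set β).encard := encard_le_encard_of_injOn hmaps hinj
  rw [encard_coe_eq_coe_finsetCard] at h1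
  have h2 : (S.encard : ℝ≥0∞) ≤ ((T.card : ℕ∞) : ℝ≥0∞) := by exact_mod_cast h1
  refine h2.trans ?_
  have h3 : (((T.card : ℕ∞)) : ℝ≥0∞) = (T.card : ℝ≥0∞) := by simp
  rw [h3, ← ENNReal.ofReal_natCast]
  exact ENNReal.ofReal_le_ofReal hC

/-! ### The exponent -/

/-- The exponent `log q / log p`. -/
noncomputable def sexp (p q : ℕ) : ℝ := Real.log q / Real.log p

lemma sexp_pos (hq : 2 ≤ q) (hp : 2 * q ≤ p) : 0 < sexp p q := by
  have h1 : (1 : ℝ) < q := by exact_mod_cast (by omega : 1 < q)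
  have h2 : (1 : ℝ) < p := by exact_mod_cast (by omega : 1 < p)
  exact div_pos (Real.log_pos h1) (Real.log_pos h2)

lemma rpow_sexp (hq : 2 ≤ q) (hp : 2 * q ≤ p) (k : ℕ) : ((p : ℝ) ^ k) ^ sexp p q = (q : ℝ) ^ k := by
  have h1 : (1 : ℝ) < q := by exact_mod_cast (by omega : 1 < q)
  have h2 : (1 : ℝ) < p := by exact_mod_cast (by omega : 1 < p)
  have h3 : Real.log p ≠ 0 := (Real.log_pos h2).ne'
  have h4 : (p : ℝ) ^ sexp p q = q := by
    rw [Real.rpow_def_of_pos (by linarith), sexp, mul_div_cancel₀ _ h3, Real.exp_log (by linarith)]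
  rw [← Real.rpow_natCast_mul (by linarith), mul_comm, Real.rpow_mul_natCast (by linarith), h4]

/-- Basic counting bound. -/
lemma cnt_l0_le (hq : 2 ≤ q) (hp : 2 * q ≤ p) (hqp : q ∣ p) {x h : ℝ} (hh : 1 ≤ h) :
    cnt (range fun n => (l0 p q n : ℝ)) x h ≤
      ENNReal.ofReal ((2 * p + 2) * h ^ sexp p q) := by
  have hp0 : 0 < p := by omega
  have hp1 : (1 : ℝ) < p := by exact_mod_cast (by omega : 1 < p)
  obtain ⟨k, hk1, hk2⟩ := exists_nat_pow_near hh hp1
  have hf : Function.Injective (fun n => (l0 p q n : ℝ)) := fun a b hab =>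
    l0_injective hq hqp hp0 (Nat.cast_injective (R := ℝ) hab)
  have hpk : (0 : ℝ) < (p : ℝ) ^ k := by positivity
  rw [← image_univ, cnt_image hf, univ_inter]
  set A : ℝ := (x - h) / p ^ k - 1 with hA
  set B : ℝ := (x + h) / p ^ k with hB
  refine encard_le_ofReal (Finset.range (q ^ k) ×ˢ Finset.Icc ⌈A⌉ ⌊B⌋)
    (fun n => (n % q ^ k, ((l0 p q (n / q ^ k) : ℕ) : ℤ))) ?_ ?_ ?_
  · intro n hn
    simp only [mem_preimage, mem_Ioo] at hn
    simp only [Finset.coe_product, mem_prod, Finset.coe_range, mem_Iio, Finset.coe_Icc, mem_Icc]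
    refine ⟨Nat.mod_lt _ (pow_pos (by omega) k), ?_, ?_⟩
    · rw [Int.ceil_le]
      have h1 := l0_split (p := p) hq k n
      have h2 := lam_lt (K := Set.univ) hq hp k n
      have h3 : (l0 p q n : ℝ) < p ^ k * (l0 p q (n / q ^ k) + 1) := by
        have : l0 p q n < p ^ k * (l0 p q (n / q ^ k) + 1) := by rw [h1]; nlinarith
        exact_mod_cast this
      rw [hA, sub_le_iff_le_add, div_le_iff₀ hpk]
      push_cast
      linarith [hn.1]
    · rw [Int.le_floor]
      have h1 := l0_split (p := p) hq k n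
      have h3 : (p : ℝ) ^ k * l0 p q (n / q ^ k) ≤ l0 p q n := by
        have : p ^ k * l0 p q (n / q ^ k) ≤ l0 p q n := by rw [h1]; omega
        exact_mod_cast this
      rw [hB, le_div_iff₀ hpk]
      push_cast
      linarith [hn.2]
  · intro n hn n' hn' heq
    simp only [Prod.mk.injEq] at heq
    have h1 : l0 p q (n / q ^ k) = l0 p q (n' / q ^ k) := by exact_mod_cast heq.2
    have h2 := l0_injective hq hqp hp0 h1
    rw [← Nat.mod_add_div n (q ^ k), ← Nat.mod_add_div n' (q ^ k), heq.1, h2]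
  · rw [Finset.card_product, Finset.card_range, Int.card_Icc]
    push_cast
    have hBA : B - A = 2 * h / p ^ k + 1 := by rw [hA, hB]; field_simp; ring
    have h1 : 2 * h / (p : ℝ) ^ k ≤ 2 * p := by
      rw [div_le_iff₀ hpk]
      rw [pow_succ] at hk2
      nlinarith
    have h0 : 0 ≤ 2 * h / (p : ℝ) ^ k := by positivity
    have h2 : (((⌊B⌋ + 1 - ⌈A⌉).toNat : ℕ) : ℝ) ≤ 2 * p + 2 := by
      rcases le_or_gt 0 (⌊B⌋ + 1 - ⌈A⌉) with h3 | h3
      · have h4 : (((⌊B⌋ + 1 - ⌈A⌉).toNat : ℤ) : ℝ) = ((⌊B⌋ + 1 - ⌈A⌉ : ℤ) : ℝ) := by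
          rw [Int.toNat_of_nonneg h3]
        have h5 : (((⌊B⌋ + 1 - ⌈A⌉).toNat : ℕ) : ℝ) = (⌊B⌋ : ℝ) + 1 - ⌈A⌉ := by
          have := h4
          push_cast at this
          exact this
        rw [h5]
        have h6 := Int.floor_le B
        have h7 := Int.le_ceil A
        linarith
      · rw [Int.toNat_of_nonpos h3.le]
        push_cast
        positivity
    have h8 : (q : ℝ) ^ k ≤ h ^ sexp p q := by
      rw [← rpow_sexp hq hp k]
      exact Real.rpow_le_rpow hpk.le hk1 (sexp_pos hq hp).le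
    have h9 : (0 : ℝ) ≤ (q : ℝ) ^ k := by positivity
    have h10 : (0 : ℝ) ≤ 2 * p + 2 := by positivity
    calc (q : ℝ) ^ k * (((⌊B⌋ + 1 - ⌈A⌉).toNat : ℕ) : ℝ) ≤ (q : ℝ) ^ k * (2 * p + 2) := by gcongr
      _ = (2 * p + 2) * (q : ℝ) ^ k := by ring
      _ ≤ _ := by gcongr

/-- Counting in a residue class. -/
lemma cnt_block_le (hq : 2 ≤ q) (hp : 2 * q ≤ p) (hqp : q ∣ p) (m c : ℕ) {x h : ℝ}
    (hh : (p : ℝ) ^ m ≤ h) :
    cnt ((fun n => (l0 p q n : ℝ)) '' {n | n % q ^ m = c}) x h ≤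
      ENNReal.ofReal ((2 * p + 2) / q ^ m * h ^ sexp p q) := by
  have hp0 : 0 < p := by omega
  have hpR : (0 : ℝ) < p := by exact_mod_cast hp0
  have hqR : (0 : ℝ) < q := by exact_mod_cast (by omega : 0 < q)
  have hpm : (0 : ℝ) < (p : ℝ) ^ m := by positivity
  have hh0 : 0 < h := hpm.trans_le hh
  have hf : Function.Injective (fun n => (l0 p q n : ℝ)) := fun a b hab =>
    l0_injective hq hqp hp0 (Nat.cast_injective (R := ℝ) hab)
  set w : ℝ := (lam p q Set.univ m c : ℝ) with hw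
  have h1 : cnt ((fun n => (l0 p q n : ℝ)) '' {n | n % q ^ m = c}) x h ≤
      cnt (range fun n => (l0 p q n : ℝ)) ((x - w) / p ^ m) (h / p ^ m) := by
    rw [cnt_image hf, ← image_univ, cnt_image hf, univ_inter]
    have : ({n | n % q ^ m = c} ∩ (fun n => (l0 p q n : ℝ)) ⁻¹' Ioo (x - h) (x + h)).encard ≤
        ((fun n => (l0 p q n : ℝ)) ⁻¹' Ioo ((x - w) / p ^ m - h / p ^ m)
          ((x - w) / p ^ m + h / p ^ m)).encard := by
      apply encard_le_encard_of_injOn (f := fun n => n / q ^ m)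
      · rintro n ⟨hn, hn2⟩
        simp only [mem_setOf_eq] at hn
        simp only [mem_preimage, mem_Ioo] at hn2 ⊢
        have h2 := l0_split (p := p) hq m n
        have h3 : lam p q Set.univ m n = lam p q Set.univ m c := by
          rw [← hn, lam_mod]
        rw [h3] at h2
        have h4 : (l0 p q n : ℝ) = w + p ^ m * l0 p q (n / q ^ m) := by
          rw [h2]; push_cast; ring
        rw [h4] at hn2
        constructor
        · rw [← sub_div, div_lt_iff₀ hpm]
          linarith [hn2.1]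
        · rw [← add_div, lt_div_iff₀ hpm]
          linarith [hn2.2]
      · rintro n ⟨hn, _⟩ n' ⟨hn', _⟩ heq
        simp only [mem_setOf_eq] at hn hn'
        simp only at heq
        rw [← Nat.mod_add_div n (q ^ m), ← Nat.mod_add_div n' (q ^ m), hn, hn', heq]
    exact_mod_cast this
  refine h1.trans ((cnt_l0_le hq hp hqp ?_).trans ?_)
  · rw [le_div_iff₀ hpm, one_mul]; exact hh
  · apply ENNReal.ofReal_le_ofReal
    rw [Real.div_rpow hh0.le hpm.le, rpow_sexp hq hp]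
    apply le_of_eq
    ring

/-- Windows that contain all the first `q^k` frequencies. -/
lemma exists_window (hq : 2 ≤ q) (hp : 2 * q ≤ p) (hqp : q ∣ p) (k : ℕ) :
    ∃ x : ℝ, ENNReal.ofReal ((2 * ((p : ℝ) - 1) / ((q : ℝ) - 1)) ^ sexp p q) *
      ENNReal.ofReal ((((q : ℝ) - 1) * p ^ k / (2 * ((p : ℝ) - 1))) ^ sexp p q) ≤
      cnt (range fun n => (l0 p q n : ℝ)) x (((q : ℝ) - 1) * p ^ k / (2 * ((p : ℝ) - 1))) := by
  have hp0 : 0 < p := by omega
  have hp1 : (1 : ℝ) < p := by exact_mod_cast (by omega : 1 < p)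
  have hq1 : (1 : ℝ) < q := by exact_mod_cast (by omega : 1 < q)
  have hf : Function.Injective (fun n => (l0 p q n : ℝ)) := fun a b hab =>
    l0_injective hq hqp hp0 (Nat.cast_injective (R := ℝ) hab)
  have hpk : (1 : ℝ) ≤ (p : ℝ) ^ k := one_le_pow₀ hp1.le
  have ha : (0 : ℝ) < p - 1 := by linarith
  have hb : (0 : ℝ) < q - 1 := by linarith
  have hlam : ∀ n, ((p : ℝ) - 1) * lam p q Set.univ k n ≤ (q - 1) * (p ^ k - 1) := by
    intro n
    clear hpk
    induction k with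
    | zero => simp [lam]
    | succ k ih =>
      rw [lam_succ, eps_univ, mul_zero, add_zero]
      have h1 : ((n / q ^ k % q : ℕ) : ℝ) ≤ q - 1 := by
        have : n / q ^ k % q + 1 ≤ q := Nat.mod_lt _ (by omega)
        have h2 : ((n / q ^ k % q : ℕ) : ℝ) + 1 ≤ q := by exact_mod_cast this
        linarith
      push_cast
      have h3 : ((p : ℝ) - 1) * (p ^ k * ((n / q ^ k % q : ℕ) : ℝ)) ≤
          ((p : ℝ) - 1) * (p ^ k * (q - 1)) := by gcongr
      rw [pow_succ]
      push_cast at h3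
      nlinarith
  refine ⟨((q : ℝ) - 1) * (p ^ k - 1) / (2 * ((p : ℝ) - 1)), ?_⟩
  have hM : ENNReal.ofReal ((2 * ((p : ℝ) - 1) / ((q : ℝ) - 1)) ^ sexp p q) *
      ENNReal.ofReal ((((q : ℝ) - 1) * p ^ k / (2 * ((p : ℝ) - 1))) ^ sexp p q) =
      ((q ^ k : ℕ) : ℝ≥0∞) := by
    rw [← ENNReal.ofReal_mul (by positivity), ← Real.mul_rpow (by positivity) (by positivity)]
    have : 2 * ((p : ℝ) - 1) / (q - 1) * ((q - 1) * p ^ k / (2 * (p - 1))) = p ^ k := by
      field_simp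
    rw [this, rpow_sexp hq hp, ← ENNReal.ofReal_natCast]
    push_cast
    rfl
  rw [hM, ← image_univ, cnt_image hf, univ_inter]
  have hsub : (↑(Finset.range (q ^ k)) : Set ℕ) ⊆ (fun n => (l0 p q n : ℝ)) ⁻¹'
      Ioo (((q : ℝ) - 1) * (p ^ k - 1) / (2 * ((p : ℝ) - 1)) -
        ((q : ℝ) - 1) * p ^ k / (2 * ((p : ℝ) - 1)))
      (((q : ℝ) - 1) * (p ^ k - 1) / (2 * ((p : ℝ) - 1)) +
        ((q : ℝ) - 1) * p ^ k / (2 * ((p : ℝ) - 1))) := by
    intro n hn
    rw [Finset.coe_range, mem_Iio] at hn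
    simp only [mem_preimage, mem_Ioo]
    rw [l0_eq hq hn]
    have h1 := hlam n
    have h2 : (0 : ℝ) ≤ lam p q Set.univ k n := by positivity
    constructor
    · refine lt_of_lt_of_le ?_ h2
      rw [← sub_div]
      apply div_neg_of_neg_of_pos
      · nlinarith
      · positivity
    · rw [← add_div, lt_div_iff₀ (by positivity)]
      nlinarith
  have h3 := encard_le_encard hsub
  rw [encard_coe_eq_coe_finsetCard, Finset.card_range] at h3
  have h4 : (((q ^ k : ℕ) : ℕ∞) : ℝ≥0∞) ≤ ((((fun n => (l0 p q n : ℝ)) ⁻¹'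
      Ioo (((q : ℝ) - 1) * (p ^ k - 1) / (2 * ((p : ℝ) - 1)) -
        ((q : ℝ) - 1) * p ^ k / (2 * ((p : ℝ) - 1)))
      (((q : ℝ) - 1) * (p ^ k - 1) / (2 * ((p : ℝ) - 1)) +
        ((q : ℝ) - 1) * p ^ k / (2 * ((p : ℝ) - 1)))).encard : ℕ∞) : ℝ≥0∞) := by
    exact_mod_cast h3
  refine le_trans ?_ h4
  simp

end Pool.Agent.Helper40.Beurling
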