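import Pool.Agent.Helper40.Beurling.Four

set_option autoImplicit false

open MeasureTheory Filter Topology Set
open scoped ENNReal

namespace Pool.Agent.Helper40.Beurling

variable {q b : ℕ}

/-! ### Uniqueness -/

lemma F_tendsto (hq : 0 < q) (hb : 2 ≤ b) {μ : Measure ℝ} (hμ : IsSelfSimilarMeasure (q * b) q μ)
    (ξ : ℝ) : Tendsto (fun n => P q b n ξ) atTop (𝓝 (F μ ξ)) := by
  haveI := hμ.isProbabilityMeasure
  have hp : 2 ≤ q * b := by nlinarith
  have hp' : (2 : ℝ) ≤ ((q * b : ℕ) : ℝ) := by exact_mod_cast hp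
  have h2 : Tendsto (fun n : ℕ => ξ / ((q * b : ℕ) : ℝ) ^ n) atTop (𝓝 0) := by
    apply Tendsto.div_atTop tendsto_const_nhds
    exact tendsto_pow_atTop_atTop_of_one_lt (by linarith)
  have h3 := ((continuous_F μ).tendsto 0).comp h2
  rw [F_zero] at h3
  have h4 := (tendsto_const_nhds (x := F μ ξ)).div h3 one_ne_zero
  rw [div_one] at h4
  refine h4.congr' ?_
  filter_upwards [h3.eventually_ne one_ne_zero] with n hn
  rw [Pi.div_apply, div_eq_iff hn]
  exact F_eq_P hq hμ n ξ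

theorem unique (hq : 0 < q) (hb : 2 ≤ b) {μ ν : Measure ℝ}
    (hμ : IsSelfSimilarMeasure (q * b) q μ) (hν : IsSelfSimilarMeasure (q * b) q ν) : μ = ν := by
  haveI := hμ.isProbabilityMeasure
  haveI := hν.isProbabilityMeasure
  apply Measure.ext_of_charFun
  ext t
  have h1 := F_eq_charFun μ (t / (2 * Real.pi))
  have h2 := F_eq_charFun ν (t / (2 * Real.pi))
  have h3 : 2 * Real.pi * (t / (2 * Real.pi)) = t := by
    have := Real.pi_ne_zero
    field_simp
  rw [h3] at h1 h2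
  rw [← h1, ← h2]
  exact tendsto_nhds_unique (F_tendsto hq hb hμ _) (F_tendsto hq hb hν _)

/-! ### Existence -/

/-- The uniform probability on `Fin q`. -/
noncomputable def unif (q : ℕ) : Measure (Fin q) := (q : ℝ≥0∞)⁻¹ • ∑ j : Fin q, Measure.dirac j

lemma isProb_unif (hq : 0 < q) : IsProbabilityMeasure (unif q) := by
  constructor
  rw [unif, Measure.smul_apply, Measure.finset_sum_apply]
  simp only [measure_univ, Finset.sum_const, Finset.card_univ, Fintype.card_fin, nsmul_eq_mul,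
    mul_one, smul_eq_mul]
  exact ENNReal.inv_mul_cancel (by exact_mod_cast hq.ne') (ENNReal.natCast_ne_top q)

/-- The space of digit sequences. -/
noncomputable def PP (q : ℕ) : Measure (ℕ → Fin q) := Measure.infinitePi (fun _ : ℕ => unif q)

/-- Prepending a digit. -/
def consd (q : ℕ) (x : Fin q × (ℕ → Fin q)) : ℕ → Fin q := fun n => Nat.casesOn n x.1 x.2

lemma measurable_consd : Measurable (consd q) := by
  rw [measurable_pi_iff]
  intro n
  cases n with
  | zero => exact measurable_fst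
  | succ k => exact (measurable_pi_apply k).comp measurable_snd

lemma PP_eq (hq : 0 < q) : PP q = ((unif q).prod (PP q)).map (consd q) := by
  haveI := isProb_unif hq
  haveI : IsProbabilityMeasure (PP q) := by unfold PP; infer_instance
  symm
  unfold PP
  apply Measure.eq_infinitePi
  intro s t ht
  classical
  obtain ⟨N, hN⟩ : ∃ N, s ⊆ Finset.range (N + 1) := by
    refine ⟨s.sup id, fun i hi => ?_⟩
    rw [Finset.mem_range]
    exact Nat.lt_succ_of_le (Finset.le_sup (f := id) hi)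
  set t' : ℕ → Set (Fin q) := fun i => if i ∈ s then t i else univ with ht'
  have hpi : Set.pi (s : Set ℕ) t = Set.pi (Finset.range (N + 1) : Set ℕ) t' := by
    ext x
    simp only [Set.mem_pi, Finset.mem_coe]
    constructor
    · intro h i _
      rw [ht']
      simp only
      split_ifs with h1
      · exact h i h1
      · trivial
    · intro h i hi
      have := h i (hN hi)
      rw [ht'] at this
      simpa [hi] using this
  have hprod : ∏ i ∈ s, unif q (t i) = ∏ i ∈ Finset.range (N + 1), unif q (t' i) := by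
    rw [← Finset.prod_subset hN]
    · apply Finset.prod_congr rfl
      intro i hi
      rw [ht']
      simp [hi]
    · intro i _ hi
      rw [ht']
      simp [hi]
  rw [hpi, hprod, Measure.map_apply measurable_consd
    (MeasurableSet.pi (Finset.countable_toSet _) fun i _ => MeasurableSet.of_discrete)]
  have hpre : consd q ⁻¹' (Set.pi (Finset.range (N + 1) : Set ℕ) t') =
      t' 0 ×ˢ Set.pi (Finset.range N : Set ℕ) (fun k => t' (k + 1)) := by
    ext ⟨a, w⟩
    simp only [Set.mem_preimage, Set.mem_pi, Finset.coe_range, Set.mem_Iio, Set.mem_prod]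
    constructor
    · intro h
      exact ⟨h 0 (Nat.succ_pos _), fun k hk => h (k + 1) (Nat.succ_lt_succ hk)⟩
    · rintro ⟨h0, h1⟩ i hi
      cases i with
      | zero => exact h0
      | succ k => exact h1 k (Nat.lt_of_succ_lt_succ hi)
  rw [hpre, Measure.prod_prod, Measure.infinitePi_pi _ (fun _ _ => MeasurableSet.of_discrete),
    Finset.prod_range_succ', mul_comm]

/-- The random sum. -/
noncomputable def XX (q b : ℕ) (w : ℕ → Fin q) : ℝ :=
  ∑' k : ℕ, (b : ℝ) * ((w k : ℕ) : ℝ) / ((q * b : ℕ) : ℝ) ^ (k + 1)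

lemma XX_bound (hq : 0 < q) (hb : 2 ≤ b) (w : ℕ → Fin q) (k : ℕ) :
    ‖(b : ℝ) * ((w k : ℕ) : ℝ) / ((q * b : ℕ) : ℝ) ^ (k + 1)‖ ≤ (1 / 2 : ℝ) ^ k := by
  have hp : 2 ≤ q * b := by nlinarith
  have hp' : (2 : ℝ) ≤ ((q * b : ℕ) : ℝ) := by exact_mod_cast hp
  have h0 : (0 : ℝ) ≤ (b : ℝ) * ((w k : ℕ) : ℝ) / ((q * b : ℕ) : ℝ) ^ (k + 1) := by positivity
  rw [Real.norm_of_nonneg h0, div_le_iff₀ (by positivity)]
  have h1 : ((w k : ℕ) : ℝ) ≤ q := by exact_mod_cast (w k).2.le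
  have h2 : (2 : ℝ) ^ k ≤ ((q * b : ℕ) : ℝ) ^ k := by gcongr
  have h3 : (1 / 2 : ℝ) ^ k * (2 : ℝ) ^ k = 1 := by rw [← mul_pow]; norm_num
  have h4 : (1 : ℝ) ≤ (1 / 2 : ℝ) ^ k * ((q * b : ℕ) : ℝ) ^ k :=
    calc (1 : ℝ) = (1 / 2 : ℝ) ^ k * (2 : ℝ) ^ k := h3.symm
      _ ≤ _ := mul_le_mul_of_nonneg_left h2 (by positivity)
  rw [pow_succ]
  have h5 : (b : ℝ) * ((w k : ℕ) : ℝ) ≤ ((q * b : ℕ) : ℝ) := by
    push_cast; nlinarith [(Nat.cast_nonneg b : (0 : ℝ) ≤ b)]
  have h6 : (0 : ℝ) ≤ ((q * b : ℕ) : ℝ) := by positivity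
  nlinarith

lemma XX_summable (hq : 0 < q) (hb : 2 ≤ b) (w : ℕ → Fin q) :
    Summable fun k : ℕ => (b : ℝ) * ((w k : ℕ) : ℝ) / ((q * b : ℕ) : ℝ) ^ (k + 1) :=
  Summable.of_norm_bounded (g := fun k : ℕ => (1 / 2 : ℝ) ^ k)
    (summable_geometric_of_lt_one (by norm_num) (by norm_num)) (XX_bound hq hb w)

lemma measurable_XX (hq : 0 < q) (hb : 2 ≤ b) : Measurable (XX q b) := by
  have h1 : ∀ w, Tendsto (fun n : ℕ => ∑ k ∈ Finset.range n,
      (b : ℝ) * ((w k : ℕ) : ℝ) / ((q * b : ℕ) : ℝ) ^ (k + 1)) atTop (𝓝 (XX q b w)) :=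
    fun w => (XX_summable hq hb w).hasSum.tendsto_sum_nat
  refine measurable_of_tendsto_metrizable (f := fun (n : ℕ) (w : ℕ → Fin q) =>
    ∑ k ∈ Finset.range n, (b : ℝ) * ((w k : ℕ) : ℝ) / ((q * b : ℕ) : ℝ) ^ (k + 1)) ?_
    (tendsto_pi_nhds.2 h1)
  intro n
  apply Finset.measurable_sum
  intro k _
  have : Measurable (fun w : ℕ → Fin q => ((w k : ℕ) : ℝ)) :=
    (measurable_of_countable (fun j : Fin q => ((j : ℕ) : ℝ))).comp (measurable_pi_apply k)
  exact (this.const_mul _).div_const _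

lemma XX_cons (hq : 0 < q) (hb : 2 ≤ b) (a : Fin q) (w : ℕ → Fin q) :
    XX q b (consd q (a, w)) = ((q * b : ℕ) : ℝ)⁻¹ * (XX q b w + ((q * b : ℕ) : ℝ) / q * (a : ℕ)) := by
  have hq' : (q : ℝ) ≠ 0 := by exact_mod_cast hq.ne'
  have hb' : (b : ℝ) ≠ 0 := by exact_mod_cast (by omega : b ≠ 0)
  have hp : ((q * b : ℕ) : ℝ) ≠ 0 := by push_cast; exact mul_ne_zero hq' hb'
  rw [XX, (XX_summable hq hb _).tsum_eq_zero_add]
  have h1 : ∀ k : ℕ, (b : ℝ) * ((consd q (a, w) (k + 1) : ℕ) : ℝ) / ((q * b : ℕ) : ℝ) ^ (k + 1 + 1) =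
      ((q * b : ℕ) : ℝ)⁻¹ * ((b : ℝ) * ((w k : ℕ) : ℝ) / ((q * b : ℕ) : ℝ) ^ (k + 1)) := by
    intro k
    change (b : ℝ) * ((w k : ℕ) : ℝ) / ((q * b : ℕ) : ℝ) ^ (k + 1 + 1) = _
    rw [pow_succ _ (k + 1)]
    field_simp
  rw [tsum_congr h1, tsum_mul_left, ← XX]
  change (b : ℝ) * ((a : ℕ) : ℝ) / ((q * b : ℕ) : ℝ) ^ (0 + 1) + _ = _
  push_cast
  field_simp
  ring

theorem exists_measure (hq : 0 < q) (hb : 2 ≤ b) :
    ∃ μ : Measure ℝ, IsSelfSimilarMeasure (q * b) q μ := by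
  haveI := isProb_unif hq
  haveI : IsProbabilityMeasure (PP q) := by unfold PP; infer_instance
  have hX := measurable_XX hq hb
  refine ⟨(PP q).map (XX q b), ?_, ?_⟩
  · exact Measure.isProbabilityMeasure_map hX.aemeasurable
  · ext A hA
    have hmeas : ∀ j : ℕ, Measurable (fun x : ℝ => ((q * b : ℕ) : ℝ)⁻¹ *
      (x + ((q * b : ℕ) : ℝ) / q * j)) := by
      intro j; fun_prop
    conv_lhs => rw [PP_eq hq, Measure.map_map hX measurable_consd,
      Measure.map_apply (hX.comp measurable_consd) hA,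
      Measure.prod_apply ((hX.comp measurable_consd) hA), unif]
    rw [lintegral_smul_measure, lintegral_finset_sum_measure]
    simp only [lintegral_dirac, Measure.smul_apply, Measure.finset_sum_apply]
    congr 1
    rw [Finset.sum_range (fun j => (Measure.map (fun x : ℝ => ((q * b : ℕ) : ℝ)⁻¹ *
      (x + ((q * b : ℕ) : ℝ) / q * (j : ℕ))) (Measure.map (XX q b) (PP q))) A)]
    apply Finset.sum_congr rfl
    intro j _
    rw [Measure.map_map (hmeas j) hX, Measure.map_apply ((hmeas j).comp hX) hA]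
    congr 1
    ext w
    simp only [mem_preimage, Function.comp]
    rw [XX_cons hq hb]

end Pool.Agent.Helper40.Beurling
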