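import Pool.Agent.Helper40.Beurling.Moved

set_option autoImplicit false

open Filter Topology Set
open scoped ENNReal

namespace Pool.Agent.Helper40.Beurling

/-- Reversal of the first `m` digits in base `q`. -/
def R (q : ℕ) : ℕ → ℕ → ℕ
  | 0, _ => 0
  | m + 1, n => q * R q m n + n / q ^ m % q

variable {p q : ℕ}

lemma R_succ (m n : ℕ) : R q (m + 1) n = q * R q m n + n / q ^ m % q := rfl

lemma R_lt (hq : 0 < q) (m n : ℕ) : R q m n < q ^ m := by
  induction m with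
  | zero => simp [R]
  | succ m ih =>
    rw [R_succ, pow_succ]
    have h1 : n / q ^ m % q < q := Nat.mod_lt _ hq
    nlinarith

lemma R_inj (hq : 0 < q) {m n n' : ℕ} (h : R q m n = R q m n') : n % q ^ m = n' % q ^ m := by
  induction m with
  | zero => simp [Nat.mod_one]
  | succ m ih =>
    rw [R_succ, R_succ] at h
    have h1 : n / q ^ m % q < q := Nat.mod_lt _ hq
    have h2 : n' / q ^ m % q < q := Nat.mod_lt _ hq
    have h3 : n / q ^ m % q = n' / q ^ m % q := by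
      have := congrArg (· % q) h
      simp only [Nat.mul_add_mod, Nat.mod_mod] at this
      exact this
    have h4 : R q m n = R q m n' := by
      rw [h3] at h
      have : q * R q m n = q * R q m n' := by omega
      exact Nat.eq_of_mul_eq_mul_left hq this
    rw [Nat.mod_pow_succ, Nat.mod_pow_succ, ih h4, h3]

lemma R_congr {m n n' : ℕ} (h : n % q ^ m = n' % q ^ m) : R q m n = R q m n' := by
  induction m with
  | zero => rfl
  | succ m ih =>
    have h1 : n % q ^ m = n' % q ^ m := by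
      have h2 : n % q ^ (m + 1) % q ^ m = n' % q ^ (m + 1) % q ^ m := by rw [h]
      rwa [Nat.mod_mod_of_dvd _ (pow_dvd_pow q (Nat.le_succ m)),
        Nat.mod_mod_of_dvd _ (pow_dvd_pow q (Nat.le_succ m))] at h2
    rw [R_succ, R_succ, ih h1]
    congr 1
    rw [Nat.mod_pow_succ, Nat.mod_pow_succ, h1] at h
    rcases Nat.eq_zero_or_pos q with hq | hq
    · subst hq
      rcases Nat.eq_zero_or_pos m with hm | hm
      · subst hm
        simp at h ⊢
        exact h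
      · rw [zero_pow hm.ne', Nat.div_zero, Nat.div_zero]
    · have h3 : q ^ m * (n / q ^ m % q) = q ^ m * (n' / q ^ m % q) := by omega
      exact Nat.eq_of_mul_eq_mul_left (pow_pos hq m) h3

lemma R_add (hq : 0 < q) (m j n : ℕ) : q ^ j * R q m n ≤ R q (m + j) n ∧
    R q (m + j) n < q ^ j * (R q m n + 1) := by
  induction j with
  | zero => simp
  | succ j ih =>
    rw [← add_assoc, R_succ, pow_succ]
    have h1 : n / q ^ (m + j) % q < q := Nat.mod_lt _ hq
    obtain ⟨h2, h3⟩ := ih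
    constructor
    · have : q * (q ^ j * R q m n) ≤ q * R q (m + j) n := Nat.mul_le_mul_left _ h2
      calc q ^ j * q * R q m n = q * (q ^ j * R q m n) := by ring
        _ ≤ q * R q (m + j) n := this
        _ ≤ _ := Nat.le_add_right _ _
    · have : q * (R q (m + j) n + 1) ≤ q * (q ^ j * (R q m n + 1)) := Nat.mul_le_mul_left _ h3
      nlinarith

lemma R_trunc (hq : 0 < q) (k j n : ℕ) : R q (k + j) (n % q ^ k) = q ^ j * R q k n := by
  induction j with
  | zero =>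
    rw [pow_zero, one_mul, add_zero]
    exact R_congr (Nat.mod_mod _ _)
  | succ j ih =>
    rw [← add_assoc, R_succ, ih]
    have h1 : n % q ^ k / q ^ (k + j) = 0 := by
      apply Nat.div_eq_of_lt
      exact (Nat.mod_lt _ (pow_pos hq k)).trans_le (Nat.pow_le_pow_right hq (by omega))
    rw [h1, Nat.zero_mod, add_zero, pow_succ]
    ring

/-- The indices with radical inverse below `t`. -/
def KT (q : ℕ) (t : ℝ) : Set ℕ := {n | ∀ m, (R q m n : ℝ) < t * (q : ℝ) ^ m}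

lemma KT_zero : KT q 0 = ∅ := by
  rw [eq_empty_iff_forall_notMem]
  intro n hn
  have := hn 0
  simp [R] at this

lemma KT_one (hq : 0 < q) : KT q 1 = univ := by
  rw [eq_univ_iff_forall]
  intro n m
  rw [one_mul]
  exact_mod_cast R_lt hq m n

lemma KT_mono {t t' : ℝ} (h : t ≤ t') : KT q t ⊆ KT q t' := by
  intro n hn m
  refine (hn m).trans_le ?_
  gcongr

lemma KT_trunc (hq : 0 < q) (t : ℝ) : TruncClosed q (KT q t) := by
  intro n hn k m
  have hqR : (0 : ℝ) < q := by exact_mod_cast hq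
  rcases le_or_gt m k with h | h
  · have h1 : R q m (n % q ^ k) = R q m n := by
      apply R_congr
      exact Nat.mod_mod_of_dvd _ (pow_dvd_pow q h)
    rw [h1]
    exact hn m
  · obtain ⟨j, rfl⟩ : ∃ j, m = k + j := ⟨m - k, by omega⟩
    rw [R_trunc hq]
    have := hn k
    push_cast
    rw [pow_add]
    have h2 : (0 : ℝ) < (q : ℝ) ^ j := by positivity
    nlinarith

lemma KT_diff (hq : 0 < q) {t t' : ℝ} (ht' : 0 ≤ t') {m : ℕ}
    (hm : (q : ℝ) ^ m * (t - t') ≤ 1) {n : ℕ} (hn : n ∈ KT q t) (hn' : n ∉ KT q t') :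
    R q m n = ⌊(q : ℝ) ^ m * t'⌋₊ ∨ R q m n = ⌊(q : ℝ) ^ m * t'⌋₊ + 1 := by
  have hqR : (0 : ℝ) < q := by exact_mod_cast hq
  have hqm : (0 : ℝ) < (q : ℝ) ^ m := by positivity
  have h1 := hn m
  have h2 : (q : ℝ) ^ m * t' < R q m n + 1 := by
    unfold KT at hn'
    simp only [mem_setOf_eq, not_forall, not_lt] at hn'
    obtain ⟨m₁, hm₁⟩ := hn'
    rcases le_or_gt m₁ m with h | h
    · obtain ⟨j, rfl⟩ : ∃ j, m = m₁ + j := ⟨m - m₁, by omega⟩
      have h3 := (R_add hq m₁ j n).1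
      have h4 : (q : ℝ) ^ j * R q m₁ n ≤ R q (m₁ + j) n := by exact_mod_cast h3
      have h5 : (q : ℝ) ^ j * (t' * (q : ℝ) ^ m₁) ≤ (q : ℝ) ^ j * R q m₁ n := by gcongr
      rw [pow_add]
      nlinarith
    · obtain ⟨j, rfl⟩ : ∃ j, m₁ = m + j := ⟨m₁ - m, by omega⟩
      have h3 := (R_add hq m j n).2
      have h4 : (R q (m + j) n : ℝ) < (q : ℝ) ^ j * (R q m n + 1) := by exact_mod_cast h3
      have h5 : (0 : ℝ) < (q : ℝ) ^ j := by positivity
      rw [pow_add] at hm₁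
      by_contra h6
      push_neg at h6
      have h7 : (q : ℝ) ^ j * (R q m n + 1) ≤ (q : ℝ) ^ j * ((q : ℝ) ^ m * t') := by gcongr
      nlinarith
  have h8 : ((⌊(q : ℝ) ^ m * t'⌋₊ : ℕ) : ℝ) ≤ (q : ℝ) ^ m * t' := Nat.floor_le (by positivity)
  have h9 : (q : ℝ) ^ m * t' < (⌊(q : ℝ) ^ m * t'⌋₊ : ℕ) + 1 := Nat.lt_floor_add_one _
  have h10 : ((⌊(q : ℝ) ^ m * t'⌋₊ : ℕ) : ℝ) < R q m n + 1 := h8.trans_lt h2
  have h11 : (R q m n : ℝ) < (⌊(q : ℝ) ^ m * t'⌋₊ : ℕ) + 2 := by nlinarith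
  have h12 : ⌊(q : ℝ) ^ m * t'⌋₊ < R q m n + 1 := by exact_mod_cast h10
  have h13 : R q m n < ⌊(q : ℝ) ^ m * t'⌋₊ + 2 := by exact_mod_cast h11
  omega

lemma exists_res (hq : 0 < q) (m a : ℕ) : ∃ c, ∀ n, R q m n = a → n % q ^ m = c := by
  by_cases h : ∃ n, R q m n = a
  · obtain ⟨n, hn⟩ := h
    exact ⟨n % q ^ m, fun n' hn' => R_inj hq (hn'.trans hn.symm)⟩
  · push_neg at h
    exact ⟨0, fun n hn => absurd hn (h n)⟩

/-- Density of the unmoved part. -/
noncomputable def g (p q : ℕ) (t : ℝ) : ℝ≥0∞ :=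
  upperBeurlingDensity (sexp p q) ((fun n => (l0 p q n : ℝ)) '' KT q t)

lemma g_mono {t t' : ℝ} (h : t ≤ t') : g p q t ≤ g p q t' :=
  ubd_mono (image_mono (KT_mono h))

lemma g_le (hq : 2 ≤ q) (hp : 2 * q ≤ p) (hqp : q ∣ p) (t : ℝ) :
    g p q t ≤ ENNReal.ofReal (2 * p + 2) := by
  refine (ubd_mono (image_subset_range _ _)).trans ?_
  apply ubd_le_const
  filter_upwards [eventually_ge_atTop 1] with h hh x
  refine (cnt_l0_le hq hp hqp hh).trans ?_
  rw [ENNReal.ofReal_mul (by positivity)]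

lemma g_diff (hq : 2 ≤ q) (hp : 2 * q ≤ p) (hqp : q ∣ p) {t t' : ℝ} (ht' : 0 ≤ t') {m : ℕ}
    (hm : (q : ℝ) ^ m * (t - t') ≤ 1) :
    g p q t ≤ g p q t' + ENNReal.ofReal (2 * ((2 * p + 2) / (q : ℝ) ^ m)) := by
  have hq0 : 0 < q := by omega
  have hqR : (0 : ℝ) < q := by exact_mod_cast hq0
  obtain ⟨c₁, hc₁⟩ := exists_res hq0 m ⌊(q : ℝ) ^ m * t'⌋₊
  obtain ⟨c₂, hc₂⟩ := exists_res hq0 m (⌊(q : ℝ) ^ m * t'⌋₊ + 1)
  apply ubd_le_add
  filter_upwards [eventually_ge_atTop ((p : ℝ) ^ m), eventually_gt_atTop 0] with h hh hpos x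
  set f : ℕ → ℝ := fun n => (l0 p q n : ℝ) with hf
  have hsub : f '' KT q t ⊆ f '' KT q t' ∪ (f '' {n | n % q ^ m = c₁} ∪
      f '' {n | n % q ^ m = c₂}) := by
    rintro y ⟨n, hn, rfl⟩
    by_cases hn' : n ∈ KT q t'
    · exact Or.inl ⟨n, hn', rfl⟩
    · rcases KT_diff hq0 ht' hm hn hn' with h1 | h1
      · exact Or.inr (Or.inl ⟨n, hc₁ n h1, rfl⟩)
      · exact Or.inr (Or.inr ⟨n, hc₂ n h1, rfl⟩)
  refine (cnt_mono hsub x h).trans ((cnt_union_le _ _ x h).trans ?_)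
  gcongr
  refine (cnt_union_le _ _ x h).trans ?_
  refine (add_le_add (cnt_block_le hq hp hqp m c₁ hh) (cnt_block_le hq hp hqp m c₂ hh)).trans ?_
  rw [← ENNReal.ofReal_add (by positivity) (by positivity), ← ENNReal.ofReal_mul (by positivity)]
  apply ENNReal.ofReal_le_ofReal
  apply le_of_eq
  ring

/-- Every value in `[0, M]` is attained. -/
theorem exists_g (hq : 2 ≤ q) (hp : 2 * q ≤ p) (hqp : q ∣ p) {d : ℝ} (hd0 : 0 ≤ d)
    (hd1 : d ≤ (2 * ((p : ℝ) - 1) / ((q : ℝ) - 1)) ^ sexp p q) :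
    ∃ t : ℝ, g p q t = ENNReal.ofReal d := by
  have hq0 : 0 < q := by omega
  have hq1 : (1 : ℝ) < q := by exact_mod_cast (by omega : 1 < q)
  have hfin : ∀ t, g p q t ≠ ⊤ := fun t => ne_top_of_le_ne_top ENNReal.ofReal_ne_top
    (g_le hq hp hqp t)
  set G : ℝ → ℝ := fun t => (g p q t).toReal with hG
  have hdiff : ∀ (m : ℕ) (t t' : ℝ), 0 ≤ t' → t' ≤ t → (q : ℝ) ^ m * (t - t') ≤ 1 →
      |G t - G t'| ≤ 2 * ((2 * p + 2) / (q : ℝ) ^ m) := by
    intro m t t' h0 h1 h2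
    have h3 := g_diff hq hp hqp h0 h2
    have h4 : G t' ≤ G t := ENNReal.toReal_mono (hfin t) (g_mono h1)
    rw [abs_of_nonneg (by linarith)]
    have h5 := ENNReal.toReal_mono (ENNReal.add_ne_top.2 ⟨hfin t', ENNReal.ofReal_ne_top⟩) h3
    rw [ENNReal.toReal_add (hfin t') ENNReal.ofReal_ne_top, ENNReal.toReal_ofReal (by positivity)]
      at h5
    linarith
  have hcont : ContinuousOn G (Icc 0 1) := by
    rw [Metric.continuousOn_iff]
    intro t ht ε hε
    have hlim : Tendsto (fun m : ℕ => 2 * ((2 * p + 2) / (q : ℝ) ^ m)) atTop (𝓝 0) := by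
      have h1 : Tendsto (fun m : ℕ => (2 * (p : ℝ) + 2) / (q : ℝ) ^ m) atTop (𝓝 0) := by
        apply Tendsto.div_atTop tendsto_const_nhds
        exact tendsto_pow_atTop_atTop_of_one_lt hq1
      have := h1.const_mul 2
      rwa [mul_zero] at this
    obtain ⟨m, hm⟩ := (hlim.eventually (gt_mem_nhds hε)).exists
    have hqm : (0 : ℝ) < (q : ℝ) ^ m := by positivity
    refine ⟨1 / (q : ℝ) ^ m, by positivity, ?_⟩
    intro t' ht' hdist
    rw [Real.dist_eq] at hdist ⊢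
    rw [lt_div_iff₀ hqm] at hdist
    refine lt_of_le_of_lt ?_ hm
    rcases le_total t t' with h | h
    · apply hdiff m t' t ht.1 h
      rw [abs_of_nonneg (by linarith)] at hdist
      linarith
    · rw [abs_sub_comm]
      apply hdiff m t t' ht'.1 h
      rw [abs_of_nonpos (by linarith)] at hdist
      linarith
  have hG0 : G 0 = 0 := by
    simp only [hG, g, KT_zero, image_empty, ubd_empty, ENNReal.toReal_zero]
  have hG1 : d ≤ G 1 := by
    have h1 := le_ubd_univ hq hp hqp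
    have h2 : g p q 1 = upperBeurlingDensity (sexp p q) (range fun n => (l0 p q n : ℝ)) := by
      rw [g, KT_one hq0, image_univ]
    rw [← h2] at h1
    have h3 := ENNReal.toReal_mono (hfin 1) h1
    rw [ENNReal.toReal_ofReal] at h3
    · exact hd1.trans h3
    · exact hd0.trans hd1
  obtain ⟨t, _, ht⟩ := intermediate_value_Icc (zero_le_one) hcont
    (show d ∈ Icc (G 0) (G 1) from ⟨by rw [hG0]; exact hd0, hG1⟩)
  refine ⟨t, ?_⟩
  rw [← ht, hG]
  simp only
  rw [ENNReal.ofReal_toReal (hfin t)]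

end Pool.Agent.Helper40.Beurling
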