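import Pool.Agent.Helper40.Beurling.Comp

set_option autoImplicit false

open MeasureTheory Complex Finset Filter Topology
open scoped ENNReal Real

namespace Pool.Agent.Helper40.Beurling

variable {q b : ℕ} {μ : Measure ℝ} {K : Set ℕ}

lemma memLp_E (μ : Measure ℝ) [IsFiniteMeasure μ] (ξ : ℝ) : MemLp (fun x => E (ξ * x)) 2 μ :=
  MemLp.of_bound (continuous_E.comp (continuous_const.mul continuous_id)).aestronglyMeasurable 1
    (Eventually.of_forall fun _ => (norm_E _).le)

/-- The exponentials as elements of `L²`. -/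
noncomputable def ee (μ : Measure ℝ) [IsProbabilityMeasure μ] (ξ : ℝ) : Lp ℂ 2 μ :=
  (memLp_E μ ξ).toLp (fun x => E (ξ * x))

lemma coe_ee (μ : Measure ℝ) [IsProbabilityMeasure μ] (ξ : ℝ) :
    (ee μ ξ : ℝ → ℂ) =ᵐ[μ] fun x => E (ξ * x) := MemLp.coeFn_toLp (memLp_E μ ξ)

lemma inner_ee [IsProbabilityMeasure μ] (ξ η : ℝ) :
    inner ℂ (ee μ ξ) (ee μ η) = F μ (η - ξ) := by
  rw [MeasureTheory.L2.inner_def, F]
  apply integral_congr_ae
  filter_upwards [coe_ee μ ξ, coe_ee μ η] with x h1 h2
  rw [h1, h2, RCLike.inner_apply, ← E_neg, ← E_add]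
  congr 1
  ring

lemma norm_ee [IsProbabilityMeasure μ] (ξ : ℝ) : ‖ee μ ξ‖ = 1 := by
  have h := inner_self_eq_norm_sq (𝕜 := ℂ) (ee μ ξ)
  rw [inner_ee, sub_self, F_zero] at h
  simp only [RCLike.one_re] at h
  have h3 := norm_nonneg (ee μ ξ)
  nlinarith

/-- A real integrable function whose exponential integrals vanish is zero. -/
lemma ae_zero_of_real [IsProbabilityMeasure μ] {h : ℝ → ℝ} (hi : Integrable h μ)
    (h0 : ∀ ξ : ℝ, ∫ x, E (ξ * x) * (h x : ℂ) ∂μ = 0) : h =ᵐ[μ] 0 := by
  have hm : AEMeasurable h μ := hi.aestronglyMeasurable.aemeasurable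
  have hm' : AEMeasurable (fun x => -h x) μ := hm.neg
  have hfin : ∀ g : ℝ → ℝ, Integrable g μ → ∫⁻ x, ENNReal.ofReal (g x) ∂μ ≠ ∞ := by
    intro g hg
    exact (hg.lintegral_lt_top).ne
  have h1 : IsFiniteMeasure (μ.withDensity fun x => ENNReal.ofReal (h x)) :=
    isFiniteMeasure_withDensity (hfin h hi)
  have h2 : IsFiniteMeasure (μ.withDensity fun x => ENNReal.ofReal (-h x)) :=
    isFiniteMeasure_withDensity (hfin _ hi.neg)
  have hE : ∀ (ξ : ℝ) (g : ℝ → ℝ), Integrable g μ → Integrable (fun x => E (ξ * x) * (g x : ℂ)) μ := by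
    intro ξ g hg
    refine hg.ofReal.bdd_mul (c := 1) ?_ ?_
    · exact (continuous_E.comp (continuous_const.mul continuous_id)).aestronglyMeasurable
    · exact Eventually.of_forall fun x => (norm_E _).le
  have h3 : (μ.withDensity fun x => ENNReal.ofReal (h x)) =
      μ.withDensity fun x => ENNReal.ofReal (-h x) := by
    apply Measure.ext_of_charFun
    ext t
    rw [charFun_apply_real, charFun_apply_real,
      integral_withDensity_eq_integral_toReal_smul₀ hm.ennreal_ofReal
        (Eventually.of_forall fun _ => ENNReal.ofReal_lt_top),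
      integral_withDensity_eq_integral_toReal_smul₀ hm'.ennreal_ofReal
        (Eventually.of_forall fun _ => ENNReal.ofReal_lt_top), ← sub_eq_zero, ← integral_sub]
    · have h4 := h0 (t / (2 * π))
      rw [← h4]
      apply integral_congr_ae
      refine Eventually.of_forall fun x => ?_
      simp only
      rw [← sub_smul, ENNReal.toReal_ofReal', ENNReal.toReal_ofReal']
      have h5 : max (h x) 0 - max (-h x) 0 = h x := by
        rcases le_total 0 (h x) with hx | hx
        · rw [max_eq_left hx, max_eq_right (by linarith)]; ring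
        · rw [max_eq_right hx, max_eq_left (by linarith)]; ring
      rw [h5, Complex.real_smul, mul_comm]
      congr 1
      rw [E]
      congr 1
      have : (π : ℂ) ≠ 0 := by exact_mod_cast Real.pi_ne_zero
      push_cast
      field_simp
    · have h6 := hE (t / (2 * π)) (fun x => max (h x) 0) hi.pos_part
      refine h6.congr (Eventually.of_forall fun x => ?_)
      simp only
      rw [ENNReal.toReal_ofReal', Complex.real_smul, mul_comm]
      congr 1
      rw [E]
      congr 1
      have : (π : ℂ) ≠ 0 := by exact_mod_cast Real.pi_ne_zero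
      push_cast
      field_simp
    · have h6 := hE (t / (2 * π)) (fun x => max (-h x) 0) hi.neg_part
      refine h6.congr (Eventually.of_forall fun x => ?_)
      simp only
      rw [ENNReal.toReal_ofReal', Complex.real_smul, mul_comm]
      congr 1
      rw [E]
      congr 1
      have : (π : ℂ) ≠ 0 := by exact_mod_cast Real.pi_ne_zero
      push_cast
      field_simp
  rw [withDensity_eq_iff hm.ennreal_ofReal hm'.ennreal_ofReal (hfin h hi)] at h3
  filter_upwards [h3] with x hx
  rcases le_total 0 (h x) with hx0 | hx0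
  · rw [ENNReal.ofReal_of_nonpos (by linarith : -h x ≤ 0), ENNReal.ofReal_eq_zero] at hx
    exact le_antisymm hx hx0
  · rw [ENNReal.ofReal_of_nonpos hx0, eq_comm, ENNReal.ofReal_eq_zero] at hx
    have hx1 : 0 ≤ h x := by linarith
    exact le_antisymm hx0 hx1

/-- The exponentials are total in `L²(μ)`. -/
lemma total [IsProbabilityMeasure μ] {g : Lp ℂ 2 μ} (h : ∀ ξ : ℝ, inner ℂ (ee μ ξ) g = 0) :
    g = 0 := by
  have hg1 : Integrable (g : ℝ → ℂ) μ := (Lp.memLp g).integrable (by norm_num)
  have h1 : ∀ ξ : ℝ, ∫ x, E (ξ * x) * (g x) ∂μ = 0 := by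
    intro ξ
    have h2 := h (-ξ)
    rw [MeasureTheory.L2.inner_def] at h2
    rw [← h2]
    apply integral_congr_ae
    filter_upwards [coe_ee μ (-ξ)] with x hx
    rw [hx, RCLike.inner_apply, ← E_neg, mul_comm]
    congr 2
    ring
  have h1' : ∀ ξ : ℝ, ∫ x, E (ξ * x) * (starRingEnd ℂ) (g x) ∂μ = 0 := by
    intro ξ
    have h2 := h1 (-ξ)
    have h3 := congrArg (starRingEnd ℂ) h2
    rw [← integral_conj, map_zero] at h3
    rw [← h3]
    apply integral_congr_ae
    refine Eventually.of_forall fun x => ?_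
    simp only
    rw [map_mul, ← E_neg]
    congr 2
    ring
  have hE : ∀ (ξ : ℝ) (f : ℝ → ℂ), Integrable f μ → Integrable (fun x => E (ξ * x) * f x) μ := by
    intro ξ f hf
    refine hf.bdd_mul (c := 1) ?_ ?_
    · exact (continuous_E.comp (continuous_const.mul continuous_id)).aestronglyMeasurable
    · exact Eventually.of_forall fun x => (norm_E _).le
  have hconj : Integrable (fun x => (starRingEnd ℂ) (g x)) μ := by
    have := (Complex.conjLIE.toContinuousLinearEquiv.toContinuousLinearMap).integrable_comp hg1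
    exact this
  have hre : (fun x => (g x).re) =ᵐ[μ] 0 := by
    apply ae_zero_of_real hg1.re
    intro ξ
    have : ∀ x, E (ξ * x) * (((g x).re : ℝ) : ℂ) =
        (2 : ℂ)⁻¹ * (E (ξ * x) * g x + E (ξ * x) * (starRingEnd ℂ) (g x)) := by
      intro x
      rw [← mul_add, Complex.add_conj]
      push_cast
      ring
    refine Eq.trans (integral_congr_ae (Eventually.of_forall this)) ?_
    rw [integral_const_mul, integral_add (hE ξ _ hg1) (hE ξ _ hconj), h1, h1']
    simp
  have him : (fun x => (g x).im) =ᵐ[μ] 0 := by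
    apply ae_zero_of_real hg1.im
    intro ξ
    have : ∀ x, E (ξ * x) * (((g x).im : ℝ) : ℂ) =
        (2 * I : ℂ)⁻¹ * (E (ξ * x) * g x - E (ξ * x) * (starRingEnd ℂ) (g x)) := by
      intro x
      rw [← mul_sub, Complex.sub_conj]
      push_cast
      field_simp
    refine Eq.trans (integral_congr_ae (Eventually.of_forall this)) ?_
    rw [integral_const_mul, integral_sub (hE ξ _ hg1) (hE ξ _ hconj), h1, h1']
    simp
  rw [Lp.eq_zero_iff_ae_eq_zero]
  filter_upwards [hre, him] with x h5 h6
  exact Complex.ext h5 h6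

lemma orthonormal_ee (hq : 2 ≤ q) (hb : 2 ≤ b) (hμ : IsSelfSimilarMeasure (q * b) q μ)
    [IsProbabilityMeasure μ] :
    Orthonormal ℂ (fun r : ℕ => ee μ (Lam (q * b) q K r)) := by
  constructor
  · intro r; exact norm_ee _
  · intro r r' hrr
    simp only
    rw [inner_ee]
    obtain ⟨j, z, h1, h2⟩ := Lam_sub (p := q * b) (K := K) hq (Dvd.intro _ rfl) hrr.symm
    have h3 : ((Lam (q * b) q K r' : ℕ) : ℝ) - (Lam (q * b) q K r : ℕ) =
        ((q * b : ℕ) : ℝ) ^ j * z := by exact_mod_cast h1
    rw [h3]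
    exact F_eq_zero (by omega) (by omega) hμ j h2

/-- The set of frequencies. -/
def Spec (p q : ℕ) (K : Set ℕ) : Set ℝ := Set.range fun r : ℕ => (Lam p q K r : ℝ)

theorem isSpectrum_Spec (hq : 2 ≤ q) (hb : 2 ≤ b) (hμ : IsSelfSimilarMeasure (q * b) q μ)
    (K : Set ℕ) : IsSpectrum μ (Spec (q * b) q K) := by
  haveI := hμ.isProbabilityMeasure
  refine ⟨Set.countable_range _, ?_⟩
  have hon := orthonormal_ee (K := K) hq hb hμ
  have hinj : Function.Injective (fun r : ℕ => (Lam (q * b) q K r : ℝ)) := by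
    intro r r' h
    have h' : Lam (q * b) q K r = Lam (q * b) q K r' := Nat.cast_injective (R := ℝ) h
    exact Lam_injective hq (Dvd.intro _ rfl) (Nat.mul_pos (by omega) (by omega)) h'
  set e := Equiv.ofInjective _ hinj with he
  have hon' : Orthonormal ℂ (fun l : Spec (q * b) q K => ee μ (l : ℝ)) := by
    have h0 : (fun l : Spec (q * b) q K => ee μ (l : ℝ)) =
        (fun r : ℕ => ee μ (Lam (q * b) q K r)) ∘ e.symm := by
      funext l
      have h1 : (e (e.symm l) : ℝ) = l := by rw [Equiv.apply_symm_apply]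
      rw [← h1]
      rfl
    rw [h0]
    exact hon.comp e.symm e.symm.injective
  have hbot : (Submodule.span ℂ (Set.range (fun l : Spec (q * b) q K => ee μ (l : ℝ))))ᗮ = ⊥ := by
    rw [Submodule.eq_bot_iff]
    intro g hg
    have hg' : ∀ r : ℕ, inner ℂ (ee μ (Lam (q * b) q K r)) g = 0 := by
      intro r
      rw [Submodule.mem_orthogonal] at hg
      apply hg
      apply Submodule.subset_span
      exact ⟨⟨_, ⟨r, rfl⟩⟩, rfl⟩
    apply total
    intro ξ
    -- the partial sums of the expansion of `ee ξ`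
    have hs := hon.inner_products_summable (x := ee μ ξ)
    have hle := hon.tsum_inner_products_le (x := ee μ ξ)
    have hterm : ∀ r : ℕ, ‖inner ℂ (ee μ (Lam (q * b) q K r)) (ee μ ξ)‖ ^ 2 =
        ‖F μ (-ξ + Lam (q * b) q K r)‖ ^ 2 := by
      intro r
      rw [inner_ee]
      have : ξ - Lam (q * b) q K r = -(-ξ + Lam (q * b) q K r) := by ring
      rw [this]
      have h2 : F μ (-(-ξ + Lam (q * b) q K r)) =
          (starRingEnd ℂ) (F μ (-ξ + Lam (q * b) q K r)) := by
        rw [F, F, ← integral_conj]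
        congr 1
        ext x
        rw [← E_neg]
        congr 1
        ring
      rw [h2, RCLike.norm_conj]
    simp_rw [hterm] at hs hle
    have hge := one_le_tsum hq hb hμ (-ξ) hs
    rw [norm_ee, one_pow] at hle
    have heq : ∑' r : ℕ, ‖F μ (-ξ + Lam (q * b) q K r)‖ ^ 2 = 1 := le_antisymm hle hge
    have hsum : HasSum (fun r : ℕ => ‖F μ (-ξ + Lam (q * b) q K r)‖ ^ 2) 1 := by
      rw [← heq]; exact hs.hasSum
    have hlim := hsum.tendsto_sum_nat
    set c : ℕ → ℂ := fun r => inner ℂ (ee μ (Lam (q * b) q K r)) (ee μ ξ) with hc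
    set d : ℕ → Lp ℂ 2 μ := fun n => ee μ ξ - ∑ r ∈ range n, c r • ee μ (Lam (q * b) q K r) with hd
    have hdn : ∀ n, ‖d n‖ ^ 2 = 1 - ∑ r ∈ range n, ‖F μ (-ξ + Lam (q * b) q K r)‖ ^ 2 := by
      intro n
      have h1 : ∑ r ∈ range n, ‖F μ (-ξ + Lam (q * b) q K r)‖ ^ 2 = ∑ r ∈ range n, ‖c r‖ ^ 2 :=
        sum_congr rfl fun r _ => (hterm r).symm
      rw [h1]
      have h2 : ‖∑ r ∈ range n, c r • ee μ (Lam (q * b) q K r)‖ ^ 2 = ∑ r ∈ range n, ‖c r‖ ^ 2 := by
        have h21 := hon.inner_sum c c (range n)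
        rw [inner_self_eq_norm_sq_to_K] at h21
        have h22 : ((‖∑ r ∈ range n, c r • ee μ (Lam (q * b) q K r)‖ ^ 2 : ℝ) : ℂ) =
            ((∑ r ∈ range n, ‖c r‖ ^ 2 : ℝ) : ℂ) := by
          push_cast
          rw [show ((‖∑ r ∈ range n, c r • ee μ (Lam (q * b) q K r)‖ : ℂ)) ^ 2 = _ from h21]
          apply sum_congr rfl
          intro r _
          rw [← Complex.conj_mul']
        exact_mod_cast h22
      have h3 : RCLike.re (inner ℂ (ee μ ξ) (∑ r ∈ range n, c r • ee μ (Lam (q * b) q K r))) =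
          ∑ r ∈ range n, ‖c r‖ ^ 2 := by
        rw [inner_sum, map_sum]
        apply sum_congr rfl
        intro r _
        rw [inner_smul_right, ← inner_conj_symm (ee μ ξ)]
        change RCLike.re (c r * (starRingEnd ℂ) (c r)) = _
        rw [RCLike.mul_conj]
        norm_cast
      rw [hd]
      simp only
      rw [@norm_sub_sq ℂ, h3, h2, norm_ee]
      ring
    have hdlim : Tendsto (fun n => ‖d n‖ ^ 2) atTop (𝓝 0) := by
      simp_rw [hdn]
      have := hlim.const_sub 1
      rwa [sub_self] at this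
    have hdlim' : Tendsto (fun n => ‖d n‖) atTop (𝓝 0) := by
      have := hdlim.sqrt
      rw [Real.sqrt_zero] at this
      refine this.congr fun n => ?_
      rw [Real.sqrt_sq (norm_nonneg _)]
    have hinner : ∀ n, ‖inner ℂ (ee μ ξ) g‖ ≤ ‖d n‖ * ‖g‖ := by
      intro n
      have h1 : inner ℂ (ee μ ξ) g = inner ℂ (d n) g := by
        rw [hd]
        simp only
        rw [inner_sub_left, sum_inner]
        have : ∑ r ∈ range n, inner ℂ (c r • ee μ (Lam (q * b) q K r)) g = 0 := by
          apply sum_eq_zero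
          intro r _
          rw [inner_smul_left, hg' r, mul_zero]
        rw [this, sub_zero]
      rw [h1]
      exact norm_inner_le_norm _ _
    have h0 : ‖inner ℂ (ee μ ξ) g‖ ≤ 0 := by
      have h1 : Tendsto (fun n => ‖d n‖ * ‖g‖) atTop (𝓝 0) := by
        have := hdlim'.mul_const ‖g‖
        rwa [zero_mul] at this
      exact ge_of_tendsto' h1 hinner
    exact norm_le_zero_iff.1 h0
  refine ⟨HilbertBasis.mkOfOrthogonalEqBot hon' hbot, ?_⟩
  intro l
  rw [HilbertBasis.coe_mkOfOrthogonalEqBot]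
  filter_upwards [coe_ee μ (l : ℝ)] with x hx
  rw [hx, E]
  congr 1
  push_cast
  ring

end Pool.Agent.Helper40.Beurling
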