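import Pool.Agent.Helper40.Beurling.Exist
import Pool.Agent.Helper40.Beurling.L2
import Pool.Agent.Helper40.Beurling.IVT

set_option autoImplicit false

open MeasureTheory Set

namespace Pool.Agent.Helper40.Beurling

theorem main {p q : ℕ} (hq : 2 ≤ q) (hqp : q ∣ p) (hlt : q < p) :
    (∃! μ : Measure ℝ, IsSelfSimilarMeasure p q μ) ∧
    ∀ μ : Measure ℝ, IsSelfSimilarMeasure p q μ →
      ∀ d : ℝ, 0 ≤ d →
        d ≤ (2 * ((p : ℝ) - 1) / ((q : ℝ) - 1)) ^ (Real.log q / Real.log p) →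
        ∃ Λ : Set ℝ, Λ ⊆ range (fun n : ℕ => (n : ℝ)) ∧ IsSpectrum μ Λ ∧
          upperBeurlingDensity (Real.log q / Real.log p) Λ = ENNReal.ofReal d := by
  obtain ⟨b, rfl⟩ := hqp
  have hb : 2 ≤ b := by
    by_contra h
    have : b ≤ 1 := by omega
    have := Nat.mul_le_mul_left q this
    omega
  have hp : 2 * q ≤ q * b := by nlinarith
  refine ⟨?_, ?_⟩
  · obtain ⟨μ, hμ⟩ := exists_measure (q := q) (by omega) hb
    exact ⟨μ, hμ, fun ν hν => unique (by omega) hb hν hμ⟩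
  · intro μ hμ d hd0 hd1
    obtain ⟨t, ht⟩ := exists_g hq hp (Dvd.intro _ rfl) hd0 hd1
    refine ⟨Spec (q * b) q (KT q t), ?_, isSpectrum_Spec hq hb hμ _, ?_⟩
    · rintro _ ⟨r, rfl⟩
      exact ⟨_, rfl⟩
    · rw [← ht]
      exact ubd_Spec hq hp (Dvd.intro _ rfl) (KT_trunc (by omega) t)

end Pool.Agent.Helper40.Beurling
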