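import Pool.Agent.Helper40.Beurling.Basic
import Pool.Agent.Helper40.Beurling.Defs

set_option autoImplicit false

open MeasureTheory Complex Finset Filter Topology
open scoped ENNReal Real

namespace Pool.Agent.Helper40.Beurling

/-- The Fourier transform `∫ exp (2 π i ξ x) dμ(x)`. -/
noncomputable def F (μ : Measure ℝ) (ξ : ℝ) : ℂ := ∫ x, E (ξ * x) ∂μ

lemma integrable_E (μ : Measure ℝ) [IsFiniteMeasure μ] (ξ : ℝ) :
    Integrable (fun x => E (ξ * x)) μ := by
  refine Integrable.of_bound (C := 1) ?_ ?_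
  · exact (continuous_E.comp (continuous_const.mul continuous_id)).aestronglyMeasurable
  · exact Eventually.of_forall fun x => (norm_E _).le

lemma F_zero (μ : Measure ℝ) [IsProbabilityMeasure μ] : F μ 0 = 1 := by
  simp [F, E_zero]

lemma continuous_F (μ : Measure ℝ) [IsFiniteMeasure μ] : Continuous (F μ) := by
  refine continuous_of_dominated (bound := fun _ => 1) ?_ ?_ ?_ ?_
  · intro ξ
    exact (continuous_E.comp (continuous_const.mul continuous_id)).aestronglyMeasurable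
  · intro ξ
    exact Eventually.of_forall fun x => (norm_E _).le
  · exact integrable_const _
  · exact Eventually.of_forall fun x => continuous_E.comp (continuous_id.mul continuous_const)

lemma F_eq_charFun (μ : Measure ℝ) (ξ : ℝ) : F μ ξ = charFun μ (2 * π * ξ) := by
  rw [charFun_apply_real, F]
  congr 1
  ext x
  rw [E]
  congr 1
  push_cast
  ring

variable {q b : ℕ} {μ : Measure ℝ}

/-- The functional equation. -/
lemma F_eq (hq : 0 < q) (hμ : IsSelfSimilarMeasure (q * b) q μ) (ξ : ℝ) :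
    F μ ξ = Mk q b (ξ / ((q * b : ℕ) : ℝ)) * F μ (ξ / ((q * b : ℕ) : ℝ)) := by
  haveI := hμ.isProbabilityMeasure
  have hq' : (q : ℝ) ≠ 0 := by exact_mod_cast hq.ne'
  conv_lhs => rw [F, hμ.selfSimilar]
  have hmeas : ∀ j : ℕ, Measurable (fun x : ℝ => ((q * b : ℕ) : ℝ)⁻¹ *
      (x + ((q * b : ℕ) : ℝ) / q * j)) := by
    intro j; fun_prop
  rw [integral_smul_measure, integral_finset_sum_measure]
  · rw [ENNReal.toReal_inv, ENNReal.toReal_natCast, Mk]
    rw [mul_assoc, sum_mul]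
    rw [Complex.real_smul]
    push_cast
    congr 1
    apply sum_congr rfl
    intro j _
    have hj := hmeas j
    push_cast at hj
    rw [integral_map hj.aemeasurable]
    · rw [F, ← integral_const_mul]
      congr 1
      ext x
      rw [← E_add]
      congr 1
      rcases Nat.eq_zero_or_pos b with hb | hb
      · subst hb; simp
      · have hb' : (b : ℝ) ≠ 0 := by exact_mod_cast hb.ne'
        field_simp
        ring
    · exact (continuous_E.comp (continuous_const.mul continuous_id)).aestronglyMeasurable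
  · intro j _
    haveI : IsProbabilityMeasure (μ.map (fun x : ℝ => ((q * b : ℕ) : ℝ)⁻¹ *
      (x + ((q * b : ℕ) : ℝ) / q * j))) := Measure.isProbabilityMeasure_map (hmeas j).aemeasurable
    exact integrable_E _ _

/-- The partial products. -/
noncomputable def P (q b : ℕ) (n : ℕ) (ξ : ℝ) : ℂ :=
  ∏ k ∈ range n, Mk q b (ξ / ((q * b : ℕ) : ℝ) ^ (k + 1))

lemma P_succ (n : ℕ) (ξ : ℝ) :
    P q b (n + 1) ξ = P q b n ξ * Mk q b (ξ / ((q * b : ℕ) : ℝ) ^ (n + 1)) := by
  rw [P, prod_range_succ, P]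

lemma norm_P_le (hq : 0 < q) (n : ℕ) (ξ : ℝ) : ‖P q b n ξ‖ ≤ 1 := by
  rw [P, norm_prod]
  exact prod_le_one (fun _ _ => norm_nonneg _) fun _ _ => norm_Mk_le hq _

lemma F_eq_P (hq : 0 < q) (hμ : IsSelfSimilarMeasure (q * b) q μ) (n : ℕ) (ξ : ℝ) :
    F μ ξ = P q b n ξ * F μ (ξ / ((q * b : ℕ) : ℝ) ^ n) := by
  induction n with
  | zero => simp [P]
  | succ n ih =>
    rw [ih, F_eq hq hμ (ξ / ((q * b : ℕ) : ℝ) ^ n), P_succ, div_div, ← pow_succ, mul_assoc]

lemma P_periodic (hq : 0 < q) (hb : 0 < b) (n : ℕ) (ξ : ℝ) (a : ℤ) :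
    P q b n (ξ + a * ((q * b : ℕ) : ℝ) ^ n) = P q b n ξ := by
  rw [P, P]
  apply prod_congr rfl
  intro k hk
  rw [mem_range] at hk
  have hp : ((q * b : ℕ) : ℝ) ≠ 0 := by
    have : q * b ≠ 0 := (Nat.mul_pos hq hb).ne'
    exact_mod_cast this
  rw [add_div]
  apply Mk_periodic (n := b * (a * ((q * b : ℕ) : ℤ) ^ (n - (k + 1))))
  push_cast
  congr 1
  rw [mul_div_assoc]
  congr 1
  have : n = (n - (k+1)) + (k+1) := by omega
  push_cast at hp
  conv_lhs => rw [this, pow_add]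
  field_simp

/-- `P` does not see a digit `q` at the last position. -/
lemma P_periodic' (hq : 0 < q) (hb : 0 < b) (n : ℕ) (ξ : ℝ) (a : ℤ) :
    P q b (n + 1) (ξ + a * q * ((q * b : ℕ) : ℝ) ^ n) = P q b (n + 1) ξ := by
  have hq' : (q : ℝ) ≠ 0 := by exact_mod_cast hq.ne'
  have hb' : (b : ℝ) ≠ 0 := by exact_mod_cast hb.ne'
  rw [P_succ, P_succ]
  have h1 := P_periodic hq hb n ξ (a * q)
  push_cast at h1 ⊢
  rw [h1]
  congr 1
  rw [add_div]
  apply Mk_periodic (n := a)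
  field_simp
  ring

lemma norm_F_le (μ : Measure ℝ) [IsProbabilityMeasure μ] (ξ : ℝ) : ‖F μ ξ‖ ≤ 1 := by
  rw [F]
  refine (norm_integral_le_integral_norm _).trans ?_
  simp [norm_E]

/-- Nonvanishing of the transform on `(-1, 1)`. -/
lemma F_ne_zero (hq : 0 < q) (hb : 2 ≤ b) (hμ : IsSelfSimilarMeasure (q * b) q μ) {ξ : ℝ}
    (h : |ξ| < 1) : F μ ξ ≠ 0 := by
  haveI := hμ.isProbabilityMeasure
  have hp : 2 ≤ q * b := by nlinarith
  have hp' : (2 : ℝ) ≤ ((q * b : ℕ) : ℝ) := by exact_mod_cast hp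
  intro h0
  have h1 : ∀ n, F μ (ξ / ((q * b : ℕ) : ℝ) ^ n) = 0 := by
    intro n
    induction n with
    | zero => simpa using h0
    | succ n ih =>
      rw [F_eq hq hμ, mul_eq_zero] at ih
      rcases ih with ih | ih
      · exfalso
        refine Mk_ne_zero hq (by omega : 0 < b) (ξ := ξ / ((q * b : ℕ) : ℝ) ^ n) ?_ ih
        rw [abs_div, abs_of_pos (by positivity : (0 : ℝ) < ((q * b : ℕ) : ℝ) ^ n)]
        rw [div_lt_one (by positivity)]
        exact h.trans_le (one_le_pow₀ (by linarith))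
      · rw [pow_succ, ← div_div]
        exact ih
  have h2 : Tendsto (fun n : ℕ => ξ / ((q * b : ℕ) : ℝ) ^ n) atTop (𝓝 0) := by
    apply Tendsto.div_atTop tendsto_const_nhds
    exact tendsto_pow_atTop_atTop_of_one_lt (by linarith)
  have h3 := ((continuous_F μ).tendsto 0).comp h2
  have h4 : Tendsto (F μ ∘ fun n : ℕ => ξ / ((q * b : ℕ) : ℝ) ^ n) atTop (𝓝 0) := by
    refine tendsto_const_nhds.congr ?_
    intro n
    exact (h1 n).symm
  have h5 := tendsto_nhds_unique h3 h4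
  rw [F_zero] at h5
  exact one_ne_zero h5

/-- Zeros of the transform. -/
lemma F_eq_zero (hq : 0 < q) (hb : 0 < b) (hμ : IsSelfSimilarMeasure (q * b) q μ) (j : ℕ) {z : ℤ}
    (hz : ¬ (q : ℤ) ∣ z) : F μ (((q * b : ℕ) : ℝ) ^ j * z) = 0 := by
  rw [F_eq_P hq hμ (j + 1), P_succ]
  have hp : ((q * b : ℕ) : ℝ) ≠ 0 := by
    have : q * b ≠ 0 := (Nat.mul_pos hq hb).ne'
    exact_mod_cast this
  have h1 : ((q * b : ℕ) : ℝ) ^ j * z / ((q * b : ℕ) : ℝ) ^ (j + 1) = z / ((q * b : ℕ) : ℝ) := by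
    rw [pow_succ]; field_simp
  rw [h1, Mk_eq_zero hq hb hz]
  simp

/-- A uniform lower bound for `|F|` on `[-3/4, 3/4]`. -/
lemma exists_lower (hq : 0 < q) (hb : 2 ≤ b) (hμ : IsSelfSimilarMeasure (q * b) q μ) :
    ∃ c : ℝ, 0 < c ∧ ∀ ξ ∈ Set.Icc (-(3/4) : ℝ) (3/4), c ≤ ‖F μ ξ‖ := by
  haveI := hμ.isProbabilityMeasure
  have hK : IsCompact (Set.Icc (-(3/4) : ℝ) (3/4)) := isCompact_Icc
  obtain ⟨x, hx, hmin⟩ := hK.exists_isMinOn (f := fun ξ => ‖F μ ξ‖) ⟨0, by norm_num, by norm_num⟩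
    (continuous_F μ).norm.continuousOn
  refine ⟨‖F μ x‖, ?_, fun ξ hξ => hmin hξ⟩
  apply norm_pos_iff.2
  apply F_ne_zero hq hb hμ
  rw [abs_lt]
  constructor <;> linarith [hx.1, hx.2]

end Pool.Agent.Helper40.Beurling
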