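import Pool.Agent.Helper40.Beurling.Count

set_option autoImplicit false

open Filter Topology Set
open scoped ENNReal

namespace Pool.Agent.Helper40.Beurling

variable {p q : ℕ} {K : Set ℕ}

/-- Size of a moved frequency. -/
lemma Lam_moved (hq : 2 ≤ q) (hp : 2 * q ≤ p) {n : ℕ} (hn : n ∉ K) :
    q * p ^ n ≤ Lam p q K n ∧ Lam p q K n < (q + 1) * p ^ n := by
  have h1 : n < q ^ n := Nat.lt_pow_self (by omega)
  have h2 := Lam_eq (p := p) (K := K) hq h1
  rw [if_pos ⟨le_rfl, hn⟩] at h2
  have h3 := lam_lt (K := K) hq hp n n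
  rw [h2]
  constructor
  · omega
  · nlinarith

lemma cnt_moved_le (hq : 2 ≤ q) (hp : 2 * q ≤ p) (hqp : q ∣ p) {x h : ℝ} {k : ℕ}
    (hk2 : h < (p : ℝ) ^ (k + 1)) :
    cnt ((fun n => (Lam p q K n : ℝ)) '' Kᶜ) x h ≤ ENNReal.ofReal (k + 4) := by
  classical
  have hp0 : 0 < p := by omega
  have hf : Function.Injective (fun n => (Lam p q K n : ℝ)) := fun a b hab =>
    Lam_injective hq hqp hp0 (Nat.cast_injective (R := ℝ) hab)
  rw [cnt_image hf]
  set W := Kᶜ ∩ (fun n => (Lam p q K n : ℝ)) ⁻¹' Ioo (x - h) (x + h) with hW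
  by_cases hne : ∃ n, n ∈ W
  · set n₀ := Nat.find hne with hn₀
    have hn₀W : n₀ ∈ W := Nat.find_spec hne
    have hsub : ∀ n ∈ W, n ∈ insert n₀ (Finset.range (k + 3)) := by
      intro n hn
      rw [Finset.mem_insert, Finset.mem_range]
      by_cases heq : n = n₀
      · exact Or.inl heq
      · right
        have hlt : n₀ < n := lt_of_le_of_ne (Nat.find_min' hne hn) (Ne.symm heq)
        obtain ⟨j, rfl⟩ : ∃ j, n = j + 1 := ⟨n - 1, by omega⟩
        obtain ⟨hnK, hn2⟩ := hn
        obtain ⟨hn₀K, hn₀2⟩ := hn₀W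
        simp only [mem_preimage, mem_Ioo] at hn2 hn₀2
        have h1 := (Lam_moved hq hp hnK).1
        have h2 := (Lam_moved hq hp hn₀K).2
        have h3 : (q + 1) * p ^ n₀ ≤ (q + 1) * p ^ j :=
          Nat.mul_le_mul_left _ (Nat.pow_le_pow_right hp0 (by omega))
        have h4 : p ^ j + (q + 1) * p ^ j ≤ q * p ^ (j + 1) := by
          rw [pow_succ]
          have : p ^ j * (q + 2) ≤ p ^ j * (q * p) := by
            apply Nat.mul_le_mul_left
            nlinarith
          nlinarith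
        have h5 : (p : ℝ) ^ j < 2 * h := by
          have h6 : p ^ j + Lam p q K n₀ < Lam p q K (j + 1) := by omega
          have h7 : (p : ℝ) ^ j + Lam p q K n₀ < Lam p q K (j + 1) := by exact_mod_cast h6
          linarith [hn2.2, hn₀2.1]
        have h8 : (p : ℝ) ^ j < (p : ℝ) ^ (k + 2) := by
          have h9 : (2 : ℝ) ≤ p := by exact_mod_cast (by omega : 2 ≤ p)
          have h10 : (0 : ℝ) < (p : ℝ) ^ (k + 1) := by positivity
          calc (p : ℝ) ^ j < 2 * h := h5
            _ < 2 * (p : ℝ) ^ (k + 1) := by linarith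
            _ ≤ p * (p : ℝ) ^ (k + 1) := by gcongr
            _ = (p : ℝ) ^ (k + 2) := by ring
        have h11 : p ^ j < p ^ (k + 2) := by exact_mod_cast h8
        have h12 : j < k + 2 := (Nat.pow_lt_pow_iff_right (by omega : 1 < p)).1 h11
        omega
    refine encard_le_ofReal (insert n₀ (Finset.range (k + 3))) id ?_ (fun a _ b _ h => h) ?_
    · intro n hn
      exact hsub n hn
    · have := Finset.card_insert_le n₀ (Finset.range (k + 3))
      rw [Finset.card_range] at this
      have h2 : (((insert n₀ (Finset.range (k + 3))).card : ℕ) : ℝ) ≤ ((k + 3 + 1 : ℕ) : ℝ) := by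
        exact_mod_cast this
      push_cast at h2 ⊢
      linarith
  · push_neg at hne
    have : W = ∅ := eq_empty_iff_forall_notMem.2 hne
    rw [this, encard_empty]
    simp

lemma eventually_moved (hq : 2 ≤ q) (hp : 2 * q ≤ p) (hqp : q ∣ p) {ε : ℝ} (hε : 0 < ε) :
    ∀ᶠ h : ℝ in atTop, ∀ x, cnt ((fun n => (Lam p q K n : ℝ)) '' Kᶜ) x h ≤
      ENNReal.ofReal (ε * h ^ sexp p q) := by
  have hp1 : (1 : ℝ) < p := by exact_mod_cast (by omega : 1 < p)
  have hq1 : (1 : ℝ) < q := by exact_mod_cast (by omega : 1 < q)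
  -- k + 4 ≤ ε q^k for large k
  have h1 : Tendsto (fun k : ℕ => ((k : ℝ) + 4) / (q : ℝ) ^ k) atTop (𝓝 0) := by
    have h2 := tendsto_pow_const_div_const_pow_of_one_lt 1 hq1
    have h3 : Tendsto (fun k : ℕ => (4 : ℝ) / (q : ℝ) ^ k) atTop (𝓝 0) := by
      apply Tendsto.div_atTop tendsto_const_nhds
      exact tendsto_pow_atTop_atTop_of_one_lt hq1
    have h4 := h2.add h3
    rw [add_zero] at h4
    refine h4.congr fun k => ?_
    rw [pow_one, add_div]
  have h5 := h1.eventually (gt_mem_nhds hε)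
  rw [eventually_atTop] at h5
  obtain ⟨k₀, hk₀⟩ := h5
  filter_upwards [eventually_ge_atTop ((p : ℝ) ^ (k₀ + 1)), eventually_ge_atTop 1] with h hh hh1 x
  obtain ⟨k, hk1, hk2⟩ := exists_nat_pow_near hh1 hp1
  have hkk : k₀ ≤ k := by
    have : (p : ℝ) ^ (k₀ + 1) < (p : ℝ) ^ (k + 1) := hh.trans_lt hk2
    have := (pow_lt_pow_iff_right₀ hp1).1 this
    omega
  refine (cnt_moved_le hq hp hqp hk2).trans ?_
  apply ENNReal.ofReal_le_ofReal
  have h6 := hk₀ k hkk
  rw [div_lt_iff₀ (by positivity)] at h6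
  refine h6.le.trans ?_
  have h8 : (q : ℝ) ^ k ≤ h ^ sexp p q := by
    rw [← rpow_sexp hq hp k]
    exact Real.rpow_le_rpow (by positivity) hk1 (sexp_pos hq hp).le
  gcongr

/-- A set of indices closed under truncation of the base `q` expansion. -/
def TruncClosed (q : ℕ) (K : Set ℕ) : Prop := ∀ n ∈ K, ∀ k, n % q ^ k ∈ K

lemma Lam_eq_l0 (hK : TruncClosed q K) {n : ℕ} (hn : n ∈ K) : Lam p q K n = l0 p q n := by
  rw [l0, Lam, Lam]
  unfold lam
  apply Finset.sum_congr rfl
  intro m _
  rw [eps_univ]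
  have : eps K m (n % q ^ (m + 1)) = 0 := by
    unfold eps
    rw [if_neg]
    rintro ⟨h1, h2⟩
    apply h2
    have := hK n hn (m + 1)
    rwa [h1] at this
  rw [this]

/-- The density of the spectrum is the density of the unmoved part. -/
theorem ubd_Spec (hq : 2 ≤ q) (hp : 2 * q ≤ p) (hqp : q ∣ p) (hK : TruncClosed q K) :
    upperBeurlingDensity (sexp p q) (range fun n : ℕ => (Lam p q K n : ℝ)) =
      upperBeurlingDensity (sexp p q) ((fun n => (l0 p q n : ℝ)) '' K) := by
  have hsplit : (range fun n : ℕ => (Lam p q K n : ℝ)) =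
      ((fun n => (l0 p q n : ℝ)) '' K) ∪ ((fun n => (Lam p q K n : ℝ)) '' Kᶜ) := by
    rw [← image_univ, ← union_compl_self K, image_union]
    congr 1
    apply image_congr
    intro n hn
    rw [Lam_eq_l0 hK hn]
  apply le_antisymm
  · apply ENNReal.le_of_forall_pos_le_add
    intro ε hε _
    apply ubd_le_add
    filter_upwards [eventually_moved (K := K) hq hp hqp (ε := (ε : ℝ)) (by exact_mod_cast hε),
      eventually_gt_atTop 0] with h hh hpos x
    rw [hsplit]
    refine (cnt_union_le _ _ x h).trans ?_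
    gcongr
    refine (hh x).trans ?_
    rw [ENNReal.ofReal_mul (by positivity), ENNReal.ofReal_coe_nnreal]
  · apply ubd_mono
    rw [hsplit]
    exact subset_union_left

/-- The unlabelled spectrum has density at least `M`. -/
theorem le_ubd_univ (hq : 2 ≤ q) (hp : 2 * q ≤ p) (hqp : q ∣ p) :
    ENNReal.ofReal ((2 * ((p : ℝ) - 1) / ((q : ℝ) - 1)) ^ sexp p q) ≤
      upperBeurlingDensity (sexp p q) (range fun n => (l0 p q n : ℝ)) := by
  have hp1 : (1 : ℝ) < p := by exact_mod_cast (by omega : 1 < p)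
  have hq1 : (1 : ℝ) < q := by exact_mod_cast (by omega : 1 < q)
  have ha : (0 : ℝ) < p - 1 := by linarith
  have hb : (0 : ℝ) < q - 1 := by linarith
  apply le_ubd_of_frequently
  have ht : Tendsto (fun k : ℕ => ((q : ℝ) - 1) * p ^ k / (2 * ((p : ℝ) - 1))) atTop atTop := by
    apply Tendsto.atTop_div_const (by positivity)
    apply Tendsto.const_mul_atTop hb
    exact tendsto_pow_atTop_atTop_of_one_lt hp1
  refine ht.frequently (Frequently.of_forall fun k => ?_)
  exact ⟨by positivity, exists_window hq hp hqp k⟩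

end Pool.Agent.Helper40.Beurling
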